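import Pool.Agent.Helper72_QL.Struct3

/-!
# QL app1, app2: beta1_3, beta1_4
-/

set_option autoImplicit false
set_option linter.all false
open Matrix Polynomial MeasureTheory Set Filter Topology

namespace QL.H72

/-- if `(δ-1)² = s E_{ab}`, `s ≠ 0`, `δ x = x γ` with `γ` integral, then the row `b` of `x` is
proportional to an integer vector -/
theorem int_rank_one {ι : Type} [Fintype ι] [DecidableEq ι] (x γ δ : Matrix ι ι ℝ)
    (hx : x.det = 1) (hγ : γ ∈ Gam ι) (hδ : δ * x = x * γ) (s : ℝ) (hs : s ≠ 0) (a b : ι)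
    (hsq : (δ - 1) * (δ - 1) = Matrix.single a b s) :
    ∃ w : ι → ℤ, w ≠ 0 ∧ ∃ c : ℝ, iv w = c • x b := by
  have hxu : IsUnit x.det := by rw [hx]; exact isUnit_one
  have hxi : x⁻¹ * x = 1 := Matrix.nonsing_inv_mul x hxu
  have hxi' : x * x⁻¹ = 1 := Matrix.mul_nonsing_inv x hxu
  have h1 : (γ - 1) * (γ - 1) = x⁻¹ * Matrix.single a b s * x := by
    have e1 : γ - 1 = x⁻¹ * (δ - 1) * x := by
      rw [Matrix.mul_sub, Matrix.sub_mul, Matrix.mul_assoc, hδ, ← Matrix.mul_assoc, hxi,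
        Matrix.one_mul, Matrix.mul_one, hxi]
    rw [e1, ← hsq]
    calc x⁻¹ * (δ - 1) * x * (x⁻¹ * (δ - 1) * x)
        = x⁻¹ * (δ - 1) * (x * x⁻¹) * (δ - 1) * x := by simp only [Matrix.mul_assoc]
      _ = _ := by rw [hxi', Matrix.mul_one]; simp only [Matrix.mul_assoc]
  -- an entry of column `a` of `x⁻¹`
  obtain ⟨j, hj⟩ : ∃ j, x⁻¹ j a ≠ 0 := by
    by_contra hcon
    push Not at hcon
    have h2 : (x * x⁻¹) a a = 0 := by
      rw [Matrix.mul_apply]
      exact Finset.sum_eq_zero fun k _ => by rw [hcon k, mul_zero]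
    rw [hxi', Matrix.one_apply_eq] at h2
    exact one_ne_zero h2
  have hent : ∀ k, ((γ - 1) * (γ - 1)) j k = (x⁻¹ j a * s) * x b k := by
    intro k
    rw [h1, Matrix.mul_apply]
    rw [Finset.sum_eq_single b]
    · rw [Matrix.mul_single_apply_same]
    · intro i _ hi
      rw [Matrix.mul_single_apply_of_ne _ _ _ _ _ hi, zero_mul]
    · intro h; exact absurd (Finset.mem_univ b) h
  choose m hm using hγ.2
  have hint : ∀ k, ∃ z : ℤ, ((γ - 1) * (γ - 1)) j k = z := by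
    intro k
    refine ⟨(((Matrix.of m) - 1) * ((Matrix.of m) - 1)) j k, ?_⟩
    rw [Matrix.mul_apply, Matrix.mul_apply]
    push_cast
    refine Finset.sum_congr rfl fun i _ => ?_
    rw [Matrix.sub_apply, Matrix.sub_apply, Matrix.sub_apply, Matrix.sub_apply, hm, hm]
    simp only [Matrix.one_apply, Matrix.of_apply]
    push_cast
    rfl
  choose w hw using hint
  refine ⟨w, ?_, x⁻¹ j a * s, ?_⟩
  · intro hw0
    have h3 : ∀ k, x b k = 0 := by
      intro k
      have h4 := hent k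
      rw [hw k, hw0] at h4
      simp only [Pi.zero_apply, Int.cast_zero] at h4
      rcases mul_eq_zero.1 h4.symm with h5 | h5
      · exact absurd h5 (mul_ne_zero hj hs)
      · exact h5
    have h6 : (x * x⁻¹) b b = 0 := by
      rw [Matrix.mul_apply]
      exact Finset.sum_eq_zero fun k _ => by rw [h3 k, zero_mul]
    rw [hxi', Matrix.one_apply_eq] at h6
    exact one_ne_zero h6
  · funext k
    simp only [iv, Pi.smul_apply, smul_eq_mul]
    rw [← hw k, hent k]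

theorem trace_int {ι : Type} [Fintype ι] [DecidableEq ι] (x γ δ : Matrix ι ι ℝ)
    (hx : x.det = 1) (hγ : γ ∈ Gam ι) (hδ : δ * x = x * γ) : ∃ m : ℤ, δ.trace = m := by
  have hxu : IsUnit x.det := by rw [hx]; exact isUnit_one
  have hxi' : x * x⁻¹ = 1 := Matrix.mul_nonsing_inv x hxu
  have h1 : δ = x * γ * x⁻¹ := by rw [← hδ, Matrix.mul_assoc, hxi', Matrix.mul_one]
  have h2 : δ.trace = γ.trace := by
    rw [h1, Matrix.trace_mul_comm, ← Matrix.mul_assoc, Matrix.nonsing_inv_mul x hxu,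
      Matrix.one_mul]
  choose m hm using hγ.2
  refine ⟨∑ i, m i i, ?_⟩
  rw [h2, Matrix.trace]
  push_cast
  exact Finset.sum_congr rfl fun i _ => hm i i

theorem c3_vecMul (x : Matrix (Fin 3) (Fin 3) ℝ) : c3 ᵥ* x = x 0 := by
  funext j
  simp [c3, Matrix.vecMul, dotProduct, Fin.sum_univ_three]

theorem c4_vecMul (x : Matrix (Fin 4) (Fin 4) ℝ) : c4 ᵥ* x = x 0 := by
  funext j
  simp [c4, Matrix.vecMul, dotProduct, Fin.sum_univ_four]

theorem u3_neg (t : ℝ) : u3 (-t) * u3 t = 1 := by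
  rw [fixed3.2.2.2.2.2.2.2.2.2.1, neg_add_cancel]
  ext i j
  fin_cases i <;> fin_cases j <;> simp [u3]

theorem beta1_3 (htri : QL.so3_triStatement) : QL.beta1_3Statement := by
  intro x hx hT t ht γ hγ h α hh hα hB hd heq
  by_contra hcon
  rw [Filter.not_eventually] at hcon
  have hent : ∀ a b, Tendsto (fun i => h i a b) atTop (𝓝 ((1 : Matrix (Fin 3) (Fin 3) ℝ) a b)) :=
    fun a b => (tendsto_pi_nhds.1 (tendsto_pi_nhds.1 hh a)) b
  have h00 : Tendsto (fun i => h i 0 0) atTop (𝓝 1) := by simpa using hent 0 0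
  have h10 : Tendsto (fun i => h i 1 0) atTop (𝓝 0) := by simpa using hent 1 0
  have htr : Tendsto (fun i => h i 0 0 + 1 + (h i 0 0)⁻¹) atTop (𝓝 3) := by
    have := (h00.add_const 1).add (h00.inv₀ one_ne_zero)
    norm_num at this
    exact this
  have e1 : ∀ᶠ i in atTop, 0 < h i 0 0 := h00.eventually (lt_mem_nhds one_pos)
  have e2 : ∀ᶠ i in atTop, h i 0 0 + 1 + (h i 0 0)⁻¹ < 4 :=
    htr.eventually (gt_mem_nhds (by norm_num))
  have e3 : ∀ᶠ i in atTop, h i 1 0 < 1 := h10.eventually (gt_mem_nhds one_pos)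
  have e4 : ∀ᶠ i in atTop, 1 < t i := ht.eventually (eventually_gt_atTop 1)
  obtain ⟨i, hi0, hi1, hi2, hi3, hi4⟩ := (hcon.and_eventually
    (e1.and (e2.and (e3.and e4)))).exists
  have hi0' : h i 0 1 = 0 := not_not.1 hi0
  obtain ⟨r, hr⟩ := htri (h i) (hB i) (hd i) hi0' hi1
  set δ := u3 (-(t i)) * (h i * v3 (α i)) with hδdef
  have hδ : δ * x = x * γ i := by
    calc δ * x = u3 (-(t i)) * (h i * v3 (α i) * x) := by rw [hδdef, Matrix.mul_assoc]
      _ = u3 (-(t i)) * (u3 (t i) * x * γ i) := by rw [heq i]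
      _ = (u3 (-(t i)) * u3 (t i)) * x * γ i := by simp only [Matrix.mul_assoc]
      _ = x * γ i := by rw [u3_neg, Matrix.one_mul]
  obtain ⟨m, hm⟩ := trace_int x (γ i) δ hx (hγ i) hδ
  have htrace : δ.trace = h i 0 0 + 1 + (h i 0 0)⁻¹ := by
    rw [hδdef, hr]
    simp [Matrix.trace, Fin.sum_univ_three, Matrix.mul_apply, u3, a3, v3]
  have hm3 : (m : ℝ) < 4 := by rw [← hm, htrace]; exact hi2
  have hge : 2 ≤ h i 0 0 + (h i 0 0)⁻¹ := by
    have h5 : h i 0 0 * (h i 0 0)⁻¹ = 1 := mul_inv_cancel₀ hi1.ne'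
    have h6 : 0 < (h i 0 0)⁻¹ := inv_pos.2 hi1
    nlinarith [sq_nonneg (h i 0 0 - (h i 0 0)⁻¹)]
  have hm3' : (3 : ℝ) ≤ m := by rw [← hm, htrace]; linarith
  have hmeq : m = 3 := by
    have h7 : m < 4 := by exact_mod_cast hm3
    have h8 : 3 ≤ m := by exact_mod_cast hm3'
    omega
  have hl1 : h i 0 0 = 1 := by
    have h5 : h i 0 0 * (h i 0 0)⁻¹ = 1 := mul_inv_cancel₀ hi1.ne'
    have h6 : h i 0 0 + (h i 0 0)⁻¹ = 2 := by
      rw [htrace, hmeq] at hm
      push_cast at hm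
      linarith
    have h7 : (h i 0 0 - 1) ^ 2 = 0 := by nlinarith
    have h8 := pow_eq_zero_iff (two_ne_zero) |>.1 h7
    linarith
  have hr0 : h i 1 0 = r := by
    have := congrFun (congrFun hr 1) 0
    rw [this, hl1]
    simp [Matrix.mul_apply, Fin.sum_univ_three, u3, a3]
  have hs : (r - t i) ^ 2 ≠ 0 := by
    have : r - t i < 0 := by linarith
    exact pow_ne_zero 2 this.ne
  have hsq : (δ - 1) * (δ - 1) = Matrix.single 2 0 ((r - t i) ^ 2) := by
    have hδ2 : δ = !![1,0,0; r - t i,1,0; (r - t i)^2/2 + α i, r - t i, 1] := by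
      rw [hδdef, hr, hl1]
      ext a b
      fin_cases a <;> fin_cases b <;>
        simp [Matrix.mul_apply, Fin.sum_univ_three, u3, a3, v3] <;> ring
    rw [hδ2]
    ext a b
    fin_cases a <;> fin_cases b <;>
      simp [Matrix.mul_apply, Fin.sum_univ_three, Matrix.single, Matrix.one_apply] <;> ring
  obtain ⟨w, hw0, c, hw⟩ := int_rank_one x (γ i) δ hx (hγ i) hδ _ hs 2 0 hsq
  exact hT w hw0 ⟨c, by rw [c3_vecMul]; exact hw⟩

theorem u4_neg (t : ℝ) : u4 (-t) * u4 t = 1 := by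
  ext i j
  fin_cases i <;> fin_cases j <;> simp [u4, Matrix.mul_apply, Fin.sum_univ_four]
  ring

/-- `3 c + c⁻³ ≥ 4` with equality only for `c = 1` -/
theorem amgm4 (c : ℝ) (hc : 0 < c) : 4 ≤ 3 * c + (c ^ 3)⁻¹ := by
  have h1 : 0 < (c ^ 3)⁻¹ := by positivity
  have h2 : c ^ 3 * (c ^ 3)⁻¹ = 1 := mul_inv_cancel₀ (by positivity)
  have h3 : 0 ≤ c ^ 3 * (3 * c + (c ^ 3)⁻¹ - 4) := by
    have h4 : c ^ 3 * (3 * c + (c ^ 3)⁻¹ - 4) = 3 * c ^ 4 - 4 * c ^ 3 + 1 := by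
      rw [mul_sub, mul_add, h2]; ring
    rw [h4]
    have h5 : 3 * c ^ 4 - 4 * c ^ 3 + 1 = (c - 1) ^ 2 * (3 * c ^ 2 + 2 * c + 1) := by ring
    rw [h5]
    positivity
  have h6 : 0 ≤ 3 * c + (c ^ 3)⁻¹ - 4 := by
    by_contra hneg
    push Not at hneg
    have : c ^ 3 * (3 * c + (c ^ 3)⁻¹ - 4) < 0 := mul_neg_of_pos_of_neg (by positivity) hneg
    linarith
  linarith

theorem amgm4_eq (c : ℝ) (hc : 0 < c) (h : 3 * c + (c ^ 3)⁻¹ = 4) : c = 1 := by
  have h2 : c ^ 3 * (c ^ 3)⁻¹ = 1 := mul_inv_cancel₀ (by positivity)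
  have h4 : (c - 1) ^ 2 * (3 * c ^ 2 + 2 * c + 1) = 0 := by
    have h5 : c ^ 3 * (3 * c + (c ^ 3)⁻¹) = c ^ 3 * 4 := by rw [h]
    rw [mul_add, h2] at h5
    nlinarith
  rcases mul_eq_zero.1 h4 with h5 | h5
  · have := pow_eq_zero_iff (two_ne_zero) |>.1 h5
    linarith
  · nlinarith [sq_nonneg c]

theorem beta1_4 (htri : QL.so3_triStatement) (hblock : QL.hblockStatement) :
    QL.beta1_4Statement := by
  intro x hx hT t ht γ hγ h c b μ α hh hc hb hμ hα hc0 hB hd heq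
  by_contra hcon
  rw [Filter.not_eventually] at hcon
  have hent : ∀ a b, Tendsto (fun i => h i a b) atTop (𝓝 ((1 : Matrix (Fin 4) (Fin 4) ℝ) a b)) :=
    fun a b => (tendsto_pi_nhds.1 (tendsto_pi_nhds.1 hh a)) b
  have h00 : Tendsto (fun i => h i 0 0) atTop (𝓝 1) := by simpa using hent 0 0
  have h10 : Tendsto (fun i => h i 1 0) atTop (𝓝 0) := by simpa using hent 1 0
  have htr : Tendsto (fun i => c i * (h i 0 0 + 1 + (h i 0 0)⁻¹) + (c i ^ 3)⁻¹) atTop (𝓝 4) := by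
    have h1 := (h00.add_const 1).add (h00.inv₀ one_ne_zero)
    have h2 := (hc.mul h1).add ((hc.pow 3).inv₀ (by norm_num))
    norm_num at h2
    exact h2
  have e1 : ∀ᶠ i in atTop, 0 < h i 0 0 := h00.eventually (lt_mem_nhds one_pos)
  have e2 : ∀ᶠ i in atTop, c i * (h i 0 0 + 1 + (h i 0 0)⁻¹) + (c i ^ 3)⁻¹ < 5 :=
    htr.eventually (gt_mem_nhds (by norm_num))
  have e3 : ∀ᶠ i in atTop, h i 1 0 < 1 := h10.eventually (gt_mem_nhds one_pos)
  have e4 : ∀ᶠ i in atTop, 2 < t i := ht.eventually (eventually_gt_atTop 2)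
  have e5 : ∀ᶠ i in atTop, -1 < μ i * b i := by
    have := hμ.mul hb
    rw [mul_zero] at this
    exact this.eventually (lt_mem_nhds (by norm_num))
  obtain ⟨i, hi0, hi1, hi2, hi3, hi4, hi5⟩ := (hcon.and_eventually
    (e1.and (e2.and (e3.and (e4.and e5))))).exists
  have hi0' : h i 0 1 = 0 := not_not.1 hi0
  obtain ⟨hz, h33, hB3, hd3⟩ := hblock (h i) (hd i) (hB i)
  set h' := (h i).submatrix Fin.castSucc Fin.castSucc with hh'
  have h'01 : h' 0 1 = 0 := hi0'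
  have h'00 : h' 0 0 = h i 0 0 := rfl
  obtain ⟨r, hr⟩ := htri h' hB3 hd3 h'01 (by rw [h'00]; exact hi1)
  rw [h'00] at hr
  have hform : h i = a4 (h i 0 0)⁻¹ * u4 r := by
    have hr' : ∀ a b : Fin 3, h i a.castSucc b.castSucc = (a3 (h i 0 0)⁻¹ * u3 r) a b := by
      intro a b
      have := congrFun (congrFun hr a) b
      rw [← this]
      rfl
    have q00 := hr' 0 0
    have q01 := hr' 0 1
    have q02 := hr' 0 2
    have q10 := hr' 1 0
    have q11 := hr' 1 1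
    have q12 := hr' 1 2
    have q20 := hr' 2 0
    have q21 := hr' 2 1
    have q22 := hr' 2 2
    have z0 := hz 0
    have z1 := hz 1
    have z2 := hz 2
    simp [Matrix.mul_apply, Fin.sum_univ_three, u3, a3] at q00 q01 q02 q10 q11 q12 q20 q21 q22
    simp at z0 z1 z2
    ext a b
    fin_cases a <;> fin_cases b <;>
      simp [Matrix.mul_apply, Fin.sum_univ_four, u4, a4, q01, q02, q10, q11, q12, q20, q21, q22,
        z0.1, z0.2, z1.1, z1.2, z2.1, z2.2, h33]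
  set δ := u4 (-(t i)) * (h i * z4 (c i) * n4 (b i) (μ i) (α i)) with hδdef
  have hδ : δ * x = x * γ i := by
    calc δ * x = u4 (-(t i)) * (h i * z4 (c i) * n4 (b i) (μ i) (α i) * x) := by
          rw [hδdef, Matrix.mul_assoc]
      _ = u4 (-(t i)) * (u4 (t i) * x * γ i) := by rw [heq i]
      _ = (u4 (-(t i)) * u4 (t i)) * x * γ i := by simp only [Matrix.mul_assoc]
      _ = x * γ i := by rw [u4_neg, Matrix.one_mul]
  obtain ⟨m, hm⟩ := trace_int x (γ i) δ hx (hγ i) hδ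
  have hdiag : z4 (c i) = !![c i, 0,0,0; 0, c i, 0,0; 0,0,c i,0; 0,0,0,(c i ^ 3)⁻¹] := by
    ext a b
    fin_cases a <;> fin_cases b <;> simp [z4, Matrix.diagonal]
  have htrace : δ.trace = c i * (h i 0 0 + 1 + (h i 0 0)⁻¹) + (c i ^ 3)⁻¹ := by
    rw [hδdef, hform, hdiag]
    simp [Matrix.trace, Fin.sum_univ_four, Matrix.mul_apply, u4, a4, n4]
    ring
  have hm5 : (m : ℝ) < 5 := by rw [← hm, htrace]; exact hi2
  have h5 : h i 0 0 * (h i 0 0)⁻¹ = 1 := mul_inv_cancel₀ hi1.ne'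
  have hge : 2 ≤ h i 0 0 + (h i 0 0)⁻¹ := by
    have h6 : 0 < (h i 0 0)⁻¹ := inv_pos.2 hi1
    nlinarith [sq_nonneg (h i 0 0 - (h i 0 0)⁻¹)]
  have ham := amgm4 (c i) (hc0 i)
  have hc3 : 3 * c i ≤ c i * (h i 0 0 + 1 + (h i 0 0)⁻¹) := by
    have : 0 ≤ c i * (h i 0 0 + (h i 0 0)⁻¹ - 2) :=
      mul_nonneg (hc0 i).le (by linarith)
    nlinarith
  have hm4' : (4 : ℝ) ≤ m := by rw [← hm, htrace]; linarith
  have hmeq : m = 4 := by
    have h7 : m < 5 := by exact_mod_cast hm5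
    have h8 : 4 ≤ m := by exact_mod_cast hm4'
    omega
  have hsum : c i * (h i 0 0 + 1 + (h i 0 0)⁻¹) + (c i ^ 3)⁻¹ = 4 := by
    rw [← htrace, hm, hmeq]; norm_num
  have hc1 : c i = 1 := amgm4_eq (c i) (hc0 i) (by linarith)
  have hl1 : h i 0 0 = 1 := by
    have h6 : h i 0 0 + (h i 0 0)⁻¹ = 2 := by
      rw [hc1] at hsum
      norm_num at hsum
      linarith
    have h7 : (h i 0 0 - 1) ^ 2 = 0 := by nlinarith
    have h8 := pow_eq_zero_iff (two_ne_zero) |>.1 h7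
    linarith
  have hr0 : h i 1 0 = r := by
    have := congrFun (congrFun hform 1) 0
    rw [this, hl1]
    simp [Matrix.mul_apply, Fin.sum_univ_four, u4, a4]
  have hs : (r - t i) ^ 2 + μ i * b i ≠ 0 := by
    have h9 : r - t i < -1 := by linarith
    nlinarith
  have hsq : (δ - 1) * (δ - 1) = Matrix.single 2 0 ((r - t i) ^ 2 + μ i * b i) := by
    have hδ2 : δ = !![1,0,0,0; r - t i,1,0,0; (r - t i)^2/2 + α i, r - t i, 1, μ i;
        b i, 0, 0, 1] := by
      rw [hδdef, hform, hl1, hdiag, hc1]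
      ext a b
      fin_cases a <;> fin_cases b <;>
        simp [Matrix.mul_apply, Fin.sum_univ_four, u4, a4, n4] <;> ring
    rw [hδ2]
    ext a b
    fin_cases a <;> fin_cases b <;>
      simp [Matrix.mul_apply, Fin.sum_univ_four, Matrix.single, Matrix.one_apply] <;> ring
  obtain ⟨w, hw0, c', hw⟩ := int_rank_one x (γ i) δ hx (hγ i) hδ _ hs 2 0 hsq
  exact hT w hw0 ⟨c', by rw [c4_vecMul]; exact hw⟩

end QL.H72
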