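import Pool.Agent.Helper72_QL.Beta1

/-!
# QL app1, app2: beta2_3, beta2_4
-/

set_option autoImplicit false
set_option linter.all false
open Matrix Polynomial MeasureTheory Set Filter Topology

namespace QL.H72

theorem tendsto_mat {β ι κ : Type} {l : Filter β} {f : β → Matrix ι κ ℝ} {A : Matrix ι κ ℝ}
    (h : ∀ i j, Tendsto (fun k => f k i j) l (𝓝 (A i j))) : Tendsto f l (𝓝 A) :=
  tendsto_pi_nhds.2 fun i => tendsto_pi_nhds.2 fun j => h i j

/-- returns adapted to a sequence of small numbers -/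
theorem ret_select {ι : Type} [Fintype ι] [DecidableEq ι] (U : UAct ι 1)
    (Y : Set (Matrix ι ι ℝ)) (x : Matrix ι ι ℝ) (hret : Ret U Y x) (x' : Matrix ι ι ℝ)
    (hx' : x' ∈ Y) (ε : ℕ → ℝ) (hε : Tendsto ε atTop (𝓝 0)) (hne : ∀ i, ε i ≠ 0) (τ : ℝ)
    (hτ : τ ≠ 0) :
    ∃ (f : ℕ → ℕ) (w : ℕ → Fin 1 → ℝ) (γ : ℕ → Matrix ι ι ℝ), Tendsto f atTop atTop ∧
      (∀ k, γ k ∈ Gam ι) ∧ Tendsto (fun k => w k 0 * ε (f k)) atTop (𝓝 τ) ∧
      Tendsto (fun k => U.u (w k) * x * γ k) atTop (𝓝 x') := by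
  have key : ∀ k : ℕ, ∃ (i : ℕ) (w : Fin 1 → ℝ) (γ : Matrix ι ι ℝ), k ≤ i ∧ γ ∈ Gam ι ∧
      |w 0 * ε i - τ| ≤ 1 / ((k : ℝ) + 1) ∧
      ∀ a b, |(U.u w * x * γ - x') a b| < 1 / ((k : ℝ) + 1) := by
    intro k
    have hη : (0 : ℝ) < 1 / ((k : ℝ) + 1) := by positivity
    have hω1 : (fun _ : Fin 1 => τ) ≠ 0 := by
      intro h; exact hτ (congrFun h 0)
    have hω2 : (fun _ : Fin 1 => -τ) ≠ 0 := by
      intro h; exact hτ (neg_eq_zero.1 (congrFun h 0))
    obtain ⟨T1, hT1⟩ := hret x' hx' _ hω1 _ hη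
    obtain ⟨T2, hT2⟩ := hret x' hx' _ hω2 _ hη
    have hpos : 0 < 1 / (max (max T1 T2) 0 + 1) := by positivity
    have he1 : ∀ᶠ i in atTop, |ε i| < 1 / (max (max T1 T2) 0 + 1) := by
      have := hε.abs
      rw [abs_zero] at this
      exact this.eventually (gt_mem_nhds hpos)
    obtain ⟨i, hi1, hi2⟩ := (he1.and (eventually_ge_atTop k)).exists
    have hεpos : 0 < |ε i| := abs_pos.2 (hne i)
    have hTge : max (max T1 T2) 0 + 1 ≤ |ε i|⁻¹ := by
      rw [le_inv_comm₀ (by positivity) hεpos]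
      rw [one_div] at hi1
      exact hi1.le
    have hTT1 : T1 ≤ |ε i|⁻¹ := by
      have := (le_max_left T1 T2).trans (le_max_left (max T1 T2) 0)
      linarith
    have hTT2 : T2 ≤ |ε i|⁻¹ := by
      have := (le_max_right T1 T2).trans (le_max_left (max T1 T2) 0)
      linarith
    rcases lt_or_gt_of_ne (hne i) with hneg | hposε
    · obtain ⟨w, hw1, γ, hγ, hw2⟩ := hT2 _ hTT2
      refine ⟨i, w, γ, hi2, hγ, ?_, hw2⟩
      have h1 : |w 0 - |ε i|⁻¹ * (-τ)| ≤ 1 / ((k : ℝ) + 1) * |ε i|⁻¹ := by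
        have := (norm_le_pi_norm (w - |ε i|⁻¹ • fun _ : Fin 1 => -τ) 0).trans hw1
        simpa [Real.norm_eq_abs] using this
      have h2 : w 0 * ε i - τ = -((w 0 - |ε i|⁻¹ * (-τ)) * |ε i|) := by
        rw [sub_mul, mul_assoc, mul_comm (-τ), ← mul_assoc, inv_mul_cancel₀ hεpos.ne',
          abs_of_neg hneg]
        ring
      rw [h2, abs_neg, abs_mul, abs_abs]
      calc |w 0 - |ε i|⁻¹ * (-τ)| * |ε i| ≤ (1 / ((k : ℝ) + 1) * |ε i|⁻¹) * |ε i| := by gcongr
        _ = 1 / ((k : ℝ) + 1) := by rw [mul_assoc, inv_mul_cancel₀ hεpos.ne', mul_one]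
    · obtain ⟨w, hw1, γ, hγ, hw2⟩ := hT1 _ hTT1
      refine ⟨i, w, γ, hi2, hγ, ?_, hw2⟩
      have h1 : |w 0 - |ε i|⁻¹ * τ| ≤ 1 / ((k : ℝ) + 1) * |ε i|⁻¹ := by
        have := (norm_le_pi_norm (w - |ε i|⁻¹ • fun _ : Fin 1 => τ) 0).trans hw1
        simpa [Real.norm_eq_abs] using this
      have h2 : w 0 * ε i - τ = (w 0 - |ε i|⁻¹ * τ) * |ε i| := by
        rw [sub_mul, mul_assoc, mul_comm τ, ← mul_assoc, inv_mul_cancel₀ hεpos.ne',
          abs_of_pos hposε]
        ring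
      rw [h2, abs_mul, abs_abs]
      calc |w 0 - |ε i|⁻¹ * τ| * |ε i| ≤ (1 / ((k : ℝ) + 1) * |ε i|⁻¹) * |ε i| := by gcongr
        _ = 1 / ((k : ℝ) + 1) := by rw [mul_assoc, inv_mul_cancel₀ hεpos.ne', mul_one]
  choose f w γ hf hγ h1 h2 using key
  refine ⟨f, w, γ, tendsto_atTop_mono hf tendsto_id, hγ, ?_, ?_⟩
  · rw [tendsto_iff_norm_sub_tendsto_zero]
    exact squeeze_zero (fun k => norm_nonneg _) (fun k => h1 k) tendsto_one_div_add_atTop_nhds_zero_nat
  · refine tendsto_mat fun a b => ?_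
    rw [tendsto_iff_norm_sub_tendsto_zero]
    exact squeeze_zero (fun k => norm_nonneg _) (fun k => (h2 k a b).le)
      tendsto_one_div_add_atTop_nhds_zero_nat

/-- a multiplicative set of positive numbers containing `(1/4, ∞)` is everything -/
theorem mul_closed_all (P : ℝ → Prop) (h1 : ∀ l, 1 / 4 < l → P l)
    (h2 : ∀ l l', 0 < l → 0 < l' → P l → P l' → P (l * l')) : ∀ l > 0, P l := by
  intro l hl
  have hpow : ∀ k : ℕ, P ((1 / 2) ^ k) := by
    intro k
    induction k with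
    | zero => exact h1 _ (by norm_num)
    | succ k ih =>
      rw [pow_succ]
      exact h2 _ _ (by positivity) (by norm_num) ih (h1 _ (by norm_num))
  obtain ⟨k, hk⟩ := pow_unbounded_of_one_lt (1 / l) (by norm_num : (1 : ℝ) < 2)
  have h3 : 1 < l * 2 ^ k := by
    rw [div_lt_iff₀ hl] at hk
    linarith
  have h4 : l = (l * 2 ^ k) * (1 / 2) ^ k := by
    rw [mul_assoc, ← mul_pow]; norm_num
  rw [h4]
  exact h2 _ _ (by positivity) (by positivity) (h1 _ (by linarith)) (hpow k)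

/-- the value of `τ` for a given `l` -/
theorem exists_tau (l : ℝ) (hl : 1 / 4 < l) (hl1 : l ≠ 1) :
    ∃ τ : ℝ, τ ≠ 0 ∧ |τ| < 2 ∧ ((1 - τ / 2) ^ 2)⁻¹ = l := by
  have hl0 : 0 < l := by linarith
  have hs : 0 < Real.sqrt l := Real.sqrt_pos.2 hl0
  have hsq : Real.sqrt l ^ 2 = l := Real.sq_sqrt hl0.le
  have hhalf : 1 / 2 < Real.sqrt l := by
    rw [show (1 : ℝ) / 2 = Real.sqrt (1 / 4) by
      rw [show (1 : ℝ) / 4 = (1 / 2) ^ 2 by norm_num, Real.sqrt_sq (by norm_num)]]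
    exact Real.sqrt_lt_sqrt (by norm_num) hl
  refine ⟨2 * (1 - (Real.sqrt l)⁻¹), ?_, ?_, ?_⟩
  · intro h
    have h1 : (Real.sqrt l)⁻¹ = 1 := by linarith
    have h2 : Real.sqrt l = 1 := inv_eq_one.1 h1
    rw [h2] at hsq
    exact hl1 (by linarith)
  · have h1 : (Real.sqrt l)⁻¹ < 2 := by
      rw [inv_lt_comm₀ hs (by norm_num)]
      linarith
    have h2 : 0 < (Real.sqrt l)⁻¹ := inv_pos.2 hs
    rw [abs_lt]
    constructor <;> linarith
  · have : 1 - 2 * (1 - (Real.sqrt l)⁻¹) / 2 = (Real.sqrt l)⁻¹ := by ring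
    rw [this, inv_pow, inv_inv, hsq]

theorem a3_one : a3 1 = 1 := by
  ext i j
  fin_cases i <;> fin_cases j <;> simp [a3]

theorem a3_mul (l l' : ℝ) : a3 l * a3 l' = a3 (l * l') := by
  ext i j
  fin_cases i <;> fin_cases j <;> simp [a3, Matrix.mul_apply, Fin.sum_univ_three, mul_comm]

theorem beta2_3 (hdrift : QL.so3_driftStatement) : QL.beta2_3Statement := by
  intro U hU Y hY x hx hret h α hh hα hB hd hin hne
  have hent : Tendsto (fun i => h i 0 1) atTop (𝓝 0) := by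
    have := (tendsto_pi_nhds.1 (tendsto_pi_nhds.1 hh 0)) 1
    simpa using this
  have hstep : ∀ l, 1 / 4 < l → ∀ y ∈ Y, a3 l * y ∈ Y := by
    intro l hl y hy
    by_cases hl1 : l = 1
    · rw [hl1, a3_one, Matrix.one_mul]; exact hy
    obtain ⟨τ, hτ0, hτ2, hτl⟩ := exists_tau l hl hl1
    obtain ⟨f, w, γ, hf, hγ, hw1, hw2⟩ := ret_select U Y x hret y hy (fun i => h i 0 1) hent hne
      τ hτ0
    obtain ⟨s, hs⟩ := hdrift (fun k => h (f k)) (fun k => hB _) (fun k => hd _) (hh.comp hf)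
      (fun k => hne _) (fun k => w k 0) τ hw1 hτ2
    rw [hτl] at hs
    have hv : Tendsto (fun k => v3 (α (f k))) atTop (𝓝 1) := by
      have := (v3_cont.tendsto 0).comp (hα.comp hf)
      rw [v3_zero] at this
      exact this
    have hlim := (hs.mul hv).mul hw2
    rw [Matrix.mul_one] at hlim
    refine hY.closed.mem_of_tendsto hlim (Eventually.of_forall fun k => ?_)
    have h1 := hY.right (γ k) (hγ k) _ (hY.left (fun _ => s k) _ (hin (f k)))
    rw [hU] at h1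
    have h2 : u3 (s k) * h (f k) * u3 (-(w k 0)) * v3 (α (f k)) * (U.u (w k) * x * γ k) =
        u3 (s k) * (h (f k) * v3 (α (f k)) * x) * γ k := by
      rw [hU]
      have hc := fixed3.2.2.2.2.2.2.1 (α (f k)) (w k 0)
      calc u3 (s k) * h (f k) * u3 (-(w k 0)) * v3 (α (f k)) * (u3 (w k 0) * x * γ k)
          = u3 (s k) * h (f k) * u3 (-(w k 0)) * (v3 (α (f k)) * u3 (w k 0)) * x * γ k := by
            simp only [Matrix.mul_assoc]
        _ = u3 (s k) * h (f k) * (u3 (-(w k 0)) * u3 (w k 0)) * v3 (α (f k)) * x * γ k := by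
            rw [hc]; simp only [Matrix.mul_assoc]
        _ = _ := by rw [u3_neg, Matrix.mul_one]; simp only [Matrix.mul_assoc]
    rw [h2]
    exact h1
  refine mul_closed_all (fun l => ∀ y ∈ Y, a3 l * y ∈ Y) hstep ?_
  intro l l' _ _ h1 h2 y hy
  rw [← a3_mul, Matrix.mul_assoc]
  exact h1 _ (h2 y hy)

/-! ### four variables -/

/-- the embedding `A ↦ A ⊕ 1` -/
def emb (A : Matrix (Fin 3) (Fin 3) ℝ) : Matrix (Fin 4) (Fin 4) ℝ :=
  !![A 0 0, A 0 1, A 0 2, 0; A 1 0, A 1 1, A 1 2, 0; A 2 0, A 2 1, A 2 2, 0; 0, 0, 0, 1]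

theorem emb_cont : Continuous emb := by
  unfold emb
  refine continuous_matrix fun i j => ?_
  fin_cases i <;> fin_cases j <;> simp <;> fun_prop

theorem emb_mul (A B : Matrix (Fin 3) (Fin 3) ℝ) : emb (A * B) = emb A * emb B := by
  ext i j
  fin_cases i <;> fin_cases j <;>
    simp [emb, Matrix.mul_apply, Fin.sum_univ_three, Fin.sum_univ_four]

theorem emb_u3 (t : ℝ) : emb (u3 t) = u4 t := by
  ext i j
  fin_cases i <;> fin_cases j <;> simp [emb, u3, u4]

theorem emb_a3 (l : ℝ) : emb (a3 l) = a4 l := by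
  ext i j
  fin_cases i <;> fin_cases j <;> simp [emb, a3, a4]

theorem eq_emb (h : Matrix (Fin 4) (Fin 4) ℝ)
    (hz : ∀ i : Fin 3, h i.castSucc 3 = 0 ∧ h 3 i.castSucc = 0) (h33 : h 3 3 = 1) :
    h = emb (h.submatrix Fin.castSucc Fin.castSucc) := by
  have z0 := hz 0
  have z1 := hz 1
  have z2 := hz 2
  simp at z0 z1 z2
  ext i j
  fin_cases i <;> fin_cases j <;>
    simp [emb, z0.1, z0.2, z1.1, z1.2, z2.1, z2.2, h33]

theorem a4_one : a4 1 = 1 := by
  ext i j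
  fin_cases i <;> fin_cases j <;> simp [a4]

theorem z4_cont : ContinuousAt z4 1 := by
  have h1 : ContinuousAt (fun c : ℝ => (c ^ 3)⁻¹) 1 := by
    refine ContinuousAt.inv₀ (by fun_prop) (by norm_num)
  unfold z4
  refine tendsto_mat fun i j => ?_
  fin_cases i <;> fin_cases j <;> simp [Matrix.diagonal] <;>
    first
      | exact tendsto_const_nhds
      | exact tendsto_id
      | simpa [ContinuousAt] using h1

theorem z4_one : z4 1 = 1 := by
  ext i j
  fin_cases i <;> fin_cases j <;> simp [z4, Matrix.diagonal]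

theorem n4_cont : Continuous fun p : ℝ × ℝ × ℝ => n4 p.1 p.2.1 p.2.2 := by
  unfold n4
  refine continuous_matrix fun i j => ?_
  fin_cases i <;> fin_cases j <;> simp <;> fun_prop

theorem n4_zero : n4 0 0 0 = 1 := by
  ext i j
  fin_cases i <;> fin_cases j <;> simp [n4]

theorem n4_tendsto (b μ α : ℕ → ℝ) (hb : Tendsto b atTop (𝓝 0)) (hμ : Tendsto μ atTop (𝓝 0))
    (hα : Tendsto α atTop (𝓝 0)) : Tendsto (fun i => n4 (b i) (μ i) (α i)) atTop (𝓝 1) := by
  have h1 := (n4_cont.tendsto (0, 0, 0)).comp (hb.prodMk_nhds (hμ.prodMk_nhds hα))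
  simp only [n4_zero] at h1
  exact h1

theorem beta2_4 (hdrift : QL.so3_driftStatement) (hblock : QL.hblockStatement)
    (halg : QL.alg4Statement) : QL.beta2_4Statement := by
  intro U hU Y hY x hx hret h c b μ α hh hc hb hμ hα hc0 hB hd hin hne
  have hent : Tendsto (fun i => h i 0 1) atTop (𝓝 0) := by
    have := (tendsto_pi_nhds.1 (tendsto_pi_nhds.1 hh 0)) 1
    simpa using this
  have hsub : ∀ i, h i = emb ((h i).submatrix Fin.castSucc Fin.castSucc) := fun i => by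
    obtain ⟨hz, h33, -, -⟩ := hblock (h i) (hd i) (hB i)
    exact eq_emb _ hz h33
  have hlim' : Tendsto (fun i => (h i).submatrix (Fin.castSucc (n := 3)) (Fin.castSucc (n := 3)))
      atTop (𝓝 1) := by
    refine tendsto_mat fun a b => ?_
    have h1 := (tendsto_pi_nhds.1 (tendsto_pi_nhds.1 hh a.castSucc)) b.castSucc
    have h2 : (1 : Matrix (Fin 4) (Fin 4) ℝ) a.castSucc b.castSucc =
        (1 : Matrix (Fin 3) (Fin 3) ℝ) a b := by
      simp only [Matrix.one_apply, Fin.castSucc_inj]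
    rw [h2] at h1
    exact h1
  have hstep : ∀ l, 1 / 4 < l → ∀ y ∈ Y, a4 l * y ∈ Y := by
    intro l hl y hy
    by_cases hl1 : l = 1
    · rw [hl1, a4_one, Matrix.one_mul]; exact hy
    obtain ⟨τ, hτ0, hτ2, hτl⟩ := exists_tau l hl hl1
    obtain ⟨f, w, γ, hf, hγ, hw1, hw2⟩ := ret_select U Y x hret y hy (fun i => h i 0 1) hent hne
      τ hτ0
    obtain ⟨s, hs⟩ := hdrift (fun k => (h (f k)).submatrix Fin.castSucc Fin.castSucc)
      (fun k => (hblock _ (hd _) (hB _)).2.2.1) (fun k => (hblock _ (hd _) (hB _)).2.2.2)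
      (hlim'.comp hf) (fun k => hne _) (fun k => w k 0) τ hw1 hτ2
    rw [hτl] at hs
    have hs4 : Tendsto (fun k => u4 (s k) * h (f k) * u4 (-(w k 0))) atTop (𝓝 (a4 l)) := by
      have h1 := (emb_cont.tendsto _).comp hs
      rw [emb_a3] at h1
      refine h1.congr fun k => ?_
      simp only [Function.comp_apply]
      rw [emb_mul, emb_mul, emb_u3, emb_u3, ← hsub]
    have hv : Tendsto (fun k => z4 (c (f k)) * n4 (b (f k)) (μ (f k)) (α (f k))) atTop (𝓝 1) := by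
      have h1 : Tendsto (fun k => z4 (c (f k))) atTop (𝓝 (z4 1)) :=
        z4_cont.tendsto.comp (hc.comp hf)
      have h2 := n4_tendsto (b ∘ f) (μ ∘ f) (α ∘ f) (hb.comp hf) (hμ.comp hf) (hα.comp hf)
      have h3 := h1.mul h2
      rw [z4_one, Matrix.mul_one] at h3
      exact h3
    have hlim := (hs4.mul hv).mul hw2
    rw [Matrix.mul_one] at hlim
    refine hY.closed.mem_of_tendsto hlim (Eventually.of_forall fun k => ?_)
    have h1 := hY.right (γ k) (hγ k) _ (hY.left (fun _ => s k) _ (hin (f k)))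
    rw [hU] at h1
    have h2 : u4 (s k) * h (f k) * u4 (-(w k 0)) *
        (z4 (c (f k)) * n4 (b (f k)) (μ (f k)) (α (f k))) * (U.u (w k) * x * γ k) =
        u4 (s k) * (h (f k) * z4 (c (f k)) * n4 (b (f k)) (μ (f k)) (α (f k)) * x) * γ k := by
      rw [hU]
      obtain ⟨-, hnu, hzu, -⟩ := halg
      set z := z4 (c (f k))
      set n := n4 (b (f k)) (μ (f k)) (α (f k)) with hn
      have hnu' : n * u4 (w k 0) = u4 (w k 0) * n := hnu _ _ _ _
      have hzu' : z * u4 (w k 0) = u4 (w k 0) * z := hzu _ _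
      calc u4 (s k) * h (f k) * u4 (-(w k 0)) * (z * n) * (u4 (w k 0) * x * γ k)
          = u4 (s k) * h (f k) * u4 (-(w k 0)) * z * (n * u4 (w k 0)) * x * γ k := by
            simp only [Matrix.mul_assoc]
        _ = u4 (s k) * h (f k) * u4 (-(w k 0)) * (z * u4 (w k 0)) * n * x * γ k := by
            rw [hnu']; simp only [Matrix.mul_assoc]
        _ = u4 (s k) * h (f k) * (u4 (-(w k 0)) * u4 (w k 0)) * z * n * x * γ k := by
            rw [hzu']; simp only [Matrix.mul_assoc]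
        _ = _ := by rw [u4_neg, Matrix.mul_one]; simp only [Matrix.mul_assoc]
    rw [h2]
    exact h1
  refine mul_closed_all (fun l => ∀ y ∈ Y, a4 l * y ∈ Y) hstep ?_
  intro l l' hl hl' h1 h2 y hy
  rw [← halg.2.2.2.2.2.2.2.2.2.2 l l' hl.ne' hl'.ne', Matrix.mul_assoc]
  exact h1 _ (h2 y hy)

end QL.H72
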