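import Pool.Agent.Helper72_QL.Beta2

/-!
# QL app1, app2: beta3_3, beta3_4
-/

set_option autoImplicit false
set_option linter.all false
open Matrix Polynomial MeasureTheory Set Filter Topology

namespace QL.H72

/-- a `U`-fixed pair which is in `DD` at a point with returns is in `DD` on all of `Y` -/
theorem DD_of_ret {ι : Type} [Fintype ι] [DecidableEq ι] (hgam : QL.DD_gamStatement)
    (hleft : QL.DD_leftStatement) (hcl : QL.DD_closedStatement) (U : UAct ι 1)
    (Y : Set (Matrix ι ι ℝ)) (x : Matrix ι ι ℝ) (hret : Ret U Y x) (S : Set (ℝ × ℝ))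
    (hS : IsClosed S) (q : W ι) (hq : ∀ w, act q (U.u w) = q) (hD : (x, q) ∈ DD S) :
    ∀ x' ∈ Y, (x', q) ∈ DD S := by
  intro x' hx'
  have hε : Tendsto (fun i : ℕ => 1 / ((i : ℝ) + 1)) atTop (𝓝 0) :=
    tendsto_one_div_add_atTop_nhds_zero_nat
  obtain ⟨f, w, γ, -, hγ, -, hw⟩ := ret_select U Y x hret x' hx' _ hε
    (fun i => (by positivity : (0 : ℝ) < 1 / ((i : ℝ) + 1)).ne') 1 one_ne_zero
  have hu0 : U.u 0 = 1 := by
    have h1 := U.add 0 0
    rw [add_zero] at h1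
    have h2 : IsUnit (U.u 0).det := by rw [U.det_one]; exact isUnit_one
    have h3 : (U.u 0)⁻¹ * U.u 0 = (U.u 0)⁻¹ * (U.u 0 * U.u 0) := by rw [← h1]
    rw [← Matrix.mul_assoc, Matrix.nonsing_inv_mul _ h2, Matrix.one_mul] at h3
    exact h3.symm
  have hmem : ∀ k, (U.u (w k) * x * γ k, q) ∈ DD S := by
    intro k
    have h1 : U.u (-(w k)) * U.u (w k) = 1 := by
      rw [← U.add, neg_add_cancel, hu0]
    have h2 := hleft hD h1
    rw [hq] at h2
    exact hgam h2 (hγ k)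
  have hlim : Tendsto (fun k => ((U.u (w k) * x * γ k, q) : Matrix ι ι ℝ × W ι)) atTop
      (𝓝 (x', q)) := hw.prodMk_nhds tendsto_const_nhds
  exact (hcl hS).mem_of_tendsto hlim (Eventually.of_forall hmem)

theorem a3_inv_mul (l : ℝ) (hl : l ≠ 0) : a3 l⁻¹ * a3 l = 1 := by
  rw [a3_mul, inv_mul_cancel₀ hl, a3_one]

theorem form3_a3 (l β : ℝ) (hl : l ≠ 0) :
    (a3 l⁻¹)ᵀ * form3 1 β * a3 l⁻¹ = form3 1 (l ^ 2 * β) := by
  ext i j
  fin_cases i <;> fin_cases j <;>
    simp [a3, form3, Matrix.mul_apply, Fin.sum_univ_three, hl]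
  ring

theorem beta3_3 (hgam : QL.DD_gamStatement) (hleft : QL.DD_leftStatement)
    (hcl : QL.DD_closedStatement) : QL.beta3_3Statement := by
  intro S hS U hU Y hY x hx hret hA α hα hne hD
  refine ⟨Polynomial.C (α 0) * Polynomial.X, ?_, ?_, ?_⟩
  · simp
  · exact mul_ne_zero (by simpa using hne 0) Polynomial.X_ne_zero
  · intro t ht x' hx'
    set l := Real.sqrt (t / 2) with hl
    have hlpos : 0 < l := Real.sqrt_pos.2 (by positivity)
    have hlsq : l ^ 2 = t / 2 := Real.sq_sqrt (by positivity)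
    have h1 := DD_of_ret hgam hleft hcl U Y x hret S hS (form3 1 (2 * α 0), (0 : Fin 3 → ℝ))
      (fun w => by
        rw [hU, act_pair3, fixed3.2.2.2.1]) (hD 0) _ (hA l⁻¹ (inv_pos.2 hlpos) x' hx')
    have h2 : a3 l⁻¹ * a3 l = 1 := a3_inv_mul l hlpos.ne'
    have h3 := hleft h1 h2
    rw [act_pair3, form3_a3 l _ hlpos.ne', ← Matrix.mul_assoc] at h3
    have h4 : a3 l * a3 l⁻¹ = 1 := by rw [a3_mul, mul_inv_cancel₀ hlpos.ne', a3_one]
    rw [h4, Matrix.one_mul, hlsq] at h3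
    have h5 : t / 2 * (2 * α 0) = (Polynomial.C (α 0) * Polynomial.X).eval t := by
      simp; ring
    rw [h5] at h3
    exact h3

/-! ### four variables -/

theorem beta3_4_alg (c b μ α l : ℝ) (hc : 0 < c) (hl : 0 < l) (halg : QL.alg4Statement)
    (hfix : QL.fixed4Statement) :
    act (act p4 (z4 c * n4 b μ α)) (a4 l⁻¹) = act p4 (z4 c * n4 (l * b) (l * μ) (l ^ 2 * α)) := by
  rw [hfix.2.2.2.2.1 c b μ α hc.ne', hfix.2.2.2.2.1 c _ _ _ hc.ne']
  unfold act
  refine Prod.ext ?_ ?_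
  · have hl' : l * l⁻¹ = 1 := mul_inv_cancel₀ hl.ne'
    ext i j
    fin_cases i <;> fin_cases j <;>
      simp [a4, form4, Matrix.mul_apply, Fin.sum_univ_four, hl.ne'] <;> field_simp
  · funext j
    fin_cases j <;> simp [a4, cov4, Matrix.vecMul, dotProduct, Fin.sum_univ_four] <;> ring

theorem z4_sub_act (c b μ α : ℝ) (hc : 0 < c) (hfix : QL.fixed4Statement) (t : ℝ) :
    act (act p4 (z4 c * n4 b μ α)) (u4 t) = act p4 (z4 c * n4 b μ α) := by
  rw [hfix.2.2.2.2.1 c b μ α hc.ne', hfix.2.1]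

theorem act_cont {ι : Type} [Fintype ι] (p : W ι) : Continuous fun g : Matrix ι ι ℝ => act p g := by
  unfold act
  fun_prop

theorem beta3_4 (hgam : QL.DD_gamStatement) (hleft : QL.DD_leftStatement)
    (hcl : QL.DD_closedStatement) (halg : QL.alg4Statement) (hfix : QL.fixed4Statement) :
    QL.beta3_4Statement := by
  intro S hS U hU Y hY x hx hret hA c b μ α hc hb hμ hα hc0 hne hD
  -- all scalings
  have hsc : ∀ i, ∀ l > 0, ∀ x' ∈ Y,
      (x', act p4 (z4 (c i) * n4 (l * b i) (l * μ i) (l ^ 2 * α i))) ∈ DD S := by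
    intro i l hl x' hx'
    have h1 := DD_of_ret hgam hleft hcl U Y x hret S hS _
      (fun w => by rw [hU]; exact z4_sub_act (c i) (b i) (μ i) (α i) (hc0 i) hfix (w 0)) (hD i)
      _ (hA l⁻¹ (inv_pos.2 hl) x' hx')
    have h2 : a4 l⁻¹ * a4 l = 1 := by
      rw [halg.2.2.2.2.2.2.2.2.2.2 _ _ (inv_ne_zero hl.ne') hl.ne', inv_mul_cancel₀ hl.ne', a4_one]
    have h3 := hleft h1 h2
    have h4 : a4 l * a4 l⁻¹ = 1 := by
      rw [halg.2.2.2.2.2.2.2.2.2.2 _ _ hl.ne' (inv_ne_zero hl.ne'), mul_inv_cancel₀ hl.ne', a4_one]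
    rw [beta3_4_alg _ _ _ _ _ (hc0 i) hl halg hfix, ← Matrix.mul_assoc, h4, Matrix.one_mul] at h3
    exact h3
  -- normalisation
  set ρ : ℕ → ℝ := fun i => max |b i| (max |μ i| (Real.sqrt |α i|)) with hρ
  have hρpos : ∀ i, 0 < ρ i := by
    intro i
    rcases hne i with h | h | h
    · exact lt_of_lt_of_le (abs_pos.2 h) (le_max_left _ _)
    · exact lt_of_lt_of_le (abs_pos.2 h) ((le_max_left _ _).trans (le_max_right _ _))
    · exact lt_of_lt_of_le (Real.sqrt_pos.2 (abs_pos.2 h))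
        ((le_max_right _ _).trans (le_max_right _ _))
  set v : ℕ → ℝ × ℝ × ℝ := fun i => ((ρ i)⁻¹ * b i, (ρ i)⁻¹ * μ i, ((ρ i)⁻¹) ^ 2 * α i) with hv
  have hvn : ∀ i, v i ∈ Metric.sphere (0 : ℝ × ℝ × ℝ) 1 := by
    intro i
    rw [mem_sphere_zero_iff_norm]
    have hr := hρpos i
    have e1 : |(ρ i)⁻¹ * b i| = (ρ i)⁻¹ * |b i| := by rw [abs_mul, abs_of_pos (inv_pos.2 hr)]
    have e2 : |(ρ i)⁻¹ * μ i| = (ρ i)⁻¹ * |μ i| := by rw [abs_mul, abs_of_pos (inv_pos.2 hr)]
    have e3 : |((ρ i)⁻¹) ^ 2 * α i| = ((ρ i)⁻¹ * Real.sqrt |α i|) ^ 2 := by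
      rw [abs_mul, abs_of_pos (by positivity), mul_pow, Real.sq_sqrt (abs_nonneg _)]
    have f1 : (ρ i)⁻¹ * |b i| ≤ 1 := by
      rw [inv_mul_le_iff₀ hr, mul_one]; exact le_max_left _ _
    have f2 : (ρ i)⁻¹ * |μ i| ≤ 1 := by
      rw [inv_mul_le_iff₀ hr, mul_one]; exact (le_max_left _ _).trans (le_max_right _ _)
    have f3 : (ρ i)⁻¹ * Real.sqrt |α i| ≤ 1 := by
      rw [inv_mul_le_iff₀ hr, mul_one]; exact (le_max_right _ _).trans (le_max_right _ _)
    have f3' : 0 ≤ (ρ i)⁻¹ * Real.sqrt |α i| := by positivity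
    simp only [hv, Prod.norm_def, Real.norm_eq_abs]
    rw [e1, e2, e3]
    apply le_antisymm
    · exact max_le f1 (max_le f2 (by nlinarith))
    · have hcase : ρ i = |b i| ∨ ρ i = |μ i| ∨ ρ i = Real.sqrt |α i| := by
        rcases max_choice |b i| (max |μ i| (Real.sqrt |α i|)) with h | h
        · exact Or.inl h
        · rcases max_choice |μ i| (Real.sqrt |α i|) with h' | h'
          · exact Or.inr (Or.inl (h.trans h'))
          · exact Or.inr (Or.inr (h.trans h'))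
      rcases hcase with h | h | h
      · refine le_trans (le_of_eq ?_) (le_max_left _ _)
        rw [← h, inv_mul_cancel₀ hr.ne']
      · refine le_trans (le_of_eq ?_) ((le_max_left _ _).trans (le_max_right _ _))
        rw [← h, inv_mul_cancel₀ hr.ne']
      · refine le_trans (le_of_eq ?_) ((le_max_right _ _).trans (le_max_right _ _))
        rw [← h, inv_mul_cancel₀ hr.ne', one_pow]
  obtain ⟨v', hv', φ, hφ, hlim⟩ := (isCompact_sphere (0 : ℝ × ℝ × ℝ) 1).tendsto_subseq hvn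
  have hv'0 : v' ≠ 0 := by
    intro h
    rw [h] at hv'
    simp at hv'
  refine ⟨Polynomial.C v'.1 * Polynomial.X, Polynomial.C v'.2.1 * Polynomial.X,
    Polynomial.C v'.2.2 * Polynomial.X ^ 2, by simp, by simp, by simp, ?_, ?_⟩
  · by_contra hcon
    push Not at hcon
    obtain ⟨h1, h2, h3⟩ := hcon
    apply hv'0
    have g1 : v'.1 = 0 := by
      rcases mul_eq_zero.1 h1 with h | h
      · exact Polynomial.C_eq_zero.1 h
      · exact absurd h Polynomial.X_ne_zero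
    have g2 : v'.2.1 = 0 := by
      rcases mul_eq_zero.1 h2 with h | h
      · exact Polynomial.C_eq_zero.1 h
      · exact absurd h Polynomial.X_ne_zero
    have g3 : v'.2.2 = 0 := by
      rcases mul_eq_zero.1 h3 with h | h
      · exact Polynomial.C_eq_zero.1 h
      · exact absurd h (pow_ne_zero 2 Polynomial.X_ne_zero)
    exact Prod.ext g1 (Prod.ext g2 g3)
  · intro t ht x' hx'
    have hlim1 : Tendsto (fun k => (v (φ k)).1) atTop (𝓝 v'.1) :=
      (continuous_fst.tendsto _).comp hlim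
    have hlim2 : Tendsto (fun k => (v (φ k)).2.1) atTop (𝓝 v'.2.1) :=
      ((continuous_fst.comp continuous_snd).tendsto _).comp hlim
    have hlim3 : Tendsto (fun k => (v (φ k)).2.2) atTop (𝓝 v'.2.2) :=
      ((continuous_snd.comp continuous_snd).tendsto _).comp hlim
    have hn' : Tendsto (fun k => ((t * (v (φ k)).1, t * (v (φ k)).2.1, t ^ 2 * (v (φ k)).2.2) :
        ℝ × ℝ × ℝ)) atTop (𝓝 (t * v'.1, t * v'.2.1, t ^ 2 * v'.2.2)) :=
      (hlim1.const_mul t).prodMk_nhds ((hlim2.const_mul t).prodMk_nhds (hlim3.const_mul _))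
    have hn := (n4_cont.tendsto (t * v'.1, t * v'.2.1, t ^ 2 * v'.2.2)).comp hn'
    simp only [Function.comp_def] at hn
    have hz : Tendsto (fun k => z4 (c (φ k))) atTop (𝓝 1) := by
      have := z4_cont.tendsto.comp (hc.comp hφ.tendsto_atTop)
      rw [z4_one] at this
      exact this
    have hzn := hz.mul hn
    rw [Matrix.one_mul] at hzn
    have hact := ((act_cont p4).tendsto _).comp hzn
    have hpair : Tendsto (fun k => ((x', act p4 (z4 (c (φ k)) *
        n4 (t * (v (φ k)).1) (t * (v (φ k)).2.1) (t ^ 2 * (v (φ k)).2.2))) :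
          Matrix (Fin 4) (Fin 4) ℝ × W (Fin 4))) atTop
        (𝓝 (x', act p4 (n4 (t * v'.1) (t * v'.2.1) (t ^ 2 * v'.2.2)))) :=
      tendsto_const_nhds.prodMk_nhds hact
    have hmem := (hcl hS).mem_of_tendsto hpair (Eventually.of_forall fun k => by
      have h1 := hsc (φ k) (t * (ρ (φ k))⁻¹) (mul_pos ht (inv_pos.2 (hρpos _))) x' hx'
      have h2 : (t * (ρ (φ k))⁻¹) ^ 2 * α (φ k) = t ^ 2 * (v (φ k)).2.2 := by
        simp only [hv]; ring
      have h3 : t * (ρ (φ k))⁻¹ * b (φ k) = t * (v (φ k)).1 := by simp only [hv]; ring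
      have h4 : t * (ρ (φ k))⁻¹ * μ (φ k) = t * (v (φ k)).2.1 := by simp only [hv]; ring
      rw [h2, h3, h4] at h1
      exact h1)
    have e1 : (Polynomial.C v'.1 * Polynomial.X).eval t = t * v'.1 := by simp; ring
    have e2 : (Polynomial.C v'.2.1 * Polynomial.X).eval t = t * v'.2.1 := by simp; ring
    have e3 : (Polynomial.C v'.2.2 * Polynomial.X ^ 2).eval t = t ^ 2 * v'.2.2 := by simp; ring
    rw [e1, e2, e3]
    exact hmem

end QL.H72
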