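import Pool.Agent.Helper72_QL.Beta2

/-!
# QL app2: beta4_4
-/

set_option autoImplicit false
set_option linter.all false
open Matrix Polynomial MeasureTheory Set Filter Topology

namespace QL.H72

/-- no common direction: `p = χ p₀`, `q = χ (t p₀ + q₀)` with `t → ∞` is impossible -/
theorem no_shear (p q χ t : ℕ → ℝ) (p0 q0 : ℝ) (hp0 : p0 ≠ 0) (hp : Tendsto p atTop (𝓝 p0))
    (hq : Tendsto q atTop (𝓝 q0)) (ht : Tendsto t atTop atTop) (h1 : ∀ i, p i = χ i * p0)
    (h2 : ∀ i, q i = χ i * (t i * p0 + q0)) : False := by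
  have hχ : Tendsto χ atTop (𝓝 1) := by
    have := hp.div_const p0
    rw [div_self hp0] at this
    refine this.congr fun i => ?_
    rw [h1 i]; field_simp
  have h3 : Tendsto (fun i => χ i * t i) atTop (𝓝 0) := by
    have h4 : Tendsto (fun i => (q i - χ i * q0) / p0) atTop (𝓝 ((q0 - 1 * q0) / p0)) :=
      (hq.sub (hχ.mul_const q0)).div_const p0
    rw [one_mul, sub_self, zero_div] at h4
    refine h4.congr fun i => ?_
    rw [h2 i]; field_simp; ring
  have h5 : Tendsto (fun i => (χ i * t i) / χ i) atTop (𝓝 (0 / 1)) := h3.div hχ one_ne_zero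
  rw [zero_div] at h5
  have h6 : Tendsto t atTop (𝓝 0) := by
    refine h5.congr' ?_
    have : ∀ᶠ i in atTop, χ i ≠ 0 := hχ.eventually_ne one_ne_zero
    filter_upwards [this] with i hi
    field_simp
  exact not_tendsto_nhds_of_tendsto_atTop ht _ h6

theorem B3_sq : B3 * B3 = 1 := by
  ext i j
  fin_cases i <;> fin_cases j <;> simp [B3, Matrix.mul_apply, Fin.sum_univ_three]

/-- no common eigenvector -/
theorem no_eigvec (h : ℕ → Matrix (Fin 3) (Fin 3) ℝ) (t χ : ℕ → ℝ)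
    (hh : Tendsto h atTop (𝓝 1)) (ht : Tendsto t atTop atTop)
    (hB : ∀ i, (h i)ᵀ * B3 * h i = B3) (hne : ∀ i, h i 0 1 ≠ 0) (v : Fin 3 → ℝ) (hv : v ≠ 0)
    (heq : ∀ i, h i *ᵥ v = χ i • (u3 (t i) *ᵥ v)) : False := by
  have hlim : Tendsto (fun i => h i *ᵥ v) atTop (𝓝 v) := by
    have h1 : Continuous fun g : Matrix (Fin 3) (Fin 3) ℝ => g *ᵥ v := by fun_prop
    have h2 := (h1.tendsto 1).comp hh
    simpa [Function.comp_def] using h2
  have hlk : ∀ k, Tendsto (fun i => (h i *ᵥ v) k) atTop (𝓝 (v k)) := fun k =>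
    (tendsto_pi_nhds.1 hlim) k
  have e0 : ∀ i, (h i *ᵥ v) 0 = χ i * v 0 := by
    intro i
    rw [heq i]
    simp [u3, Matrix.mulVec, dotProduct, Fin.sum_univ_three]
  have e1 : ∀ i, (h i *ᵥ v) 1 = χ i * (t i * v 0 + v 1) := by
    intro i
    rw [heq i]
    simp [u3, Matrix.mulVec, dotProduct, Fin.sum_univ_three]
  have e2 : ∀ i, (h i *ᵥ v) 2 = χ i * (t i ^ 2 / 2 * v 0 + t i * v 1 + v 2) := by
    intro i
    rw [heq i]
    simp [u3, Matrix.mulVec, dotProduct, Fin.sum_univ_three]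
  by_cases h0 : v 0 = 0
  · by_cases h1 : v 1 = 0
    · have h2 : v 2 ≠ 0 := by
        intro h2
        apply hv
        funext k
        fin_cases k
        · exact h0
        · exact h1
        · exact h2
      have f0 := e0 0
      have f1 := e1 0
      simp only [Matrix.mulVec, dotProduct, Fin.sum_univ_three, h0, h1, mul_zero, zero_add,
        add_zero] at f0 f1
      have g0 : h 0 0 2 = 0 := by
        rcases mul_eq_zero.1 f0 with h | h
        · exact h
        · exact absurd h h2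
      have g1 : h 0 1 2 = 0 := by
        rcases mul_eq_zero.1 f1 with h | h
        · exact h
        · exact absurd h h2
      have b1 := congrFun (congrFun (hB 0) 2) 1
      have b0 := congrFun (congrFun (hB 0) 2) 0
      simp [B3, Matrix.mul_apply, Fin.sum_univ_three, g0, g1] at b0 b1
      rcases b1 with b1 | b1
      · rw [b1, zero_mul] at b0
        exact zero_ne_one b0
      · exact hne 0 b1
    · refine no_shear _ _ χ t (v 1) (v 2) h1 (hlk 1) (hlk 2) ht ?_ ?_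
      · intro i
        rw [e1 i, h0]; ring
      · intro i
        rw [e2 i, h0]; ring
  · exact no_shear _ _ χ t (v 0) (v 1) h0 (hlk 0) (hlk 1) ht e0 e1

/-- no common covector -/
theorem no_eigcov (h : ℕ → Matrix (Fin 3) (Fin 3) ℝ) (t χ : ℕ → ℝ)
    (hh : Tendsto h atTop (𝓝 1)) (ht : Tendsto t atTop atTop)
    (hB : ∀ i, (h i)ᵀ * B3 * h i = B3) (hd : ∀ i, (h i).det = 1) (hne : ∀ i, h i 0 1 ≠ 0)
    (η : Fin 3 → ℝ) (hη : η ≠ 0)
    (heq : ∀ i, η ᵥ* (u3 (-(t i)) * h i) = χ i • η) : False := by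
  have hfix := fixed3
  have hu : ∀ s, (u3 s)ᵀ * B3 * u3 s = B3 := hfix.2.2.2.2.1
  set D : ℕ → Matrix (Fin 3) (Fin 3) ℝ := fun i => u3 (-(t i)) * h i with hD
  have hDB : ∀ i, (D i)ᵀ * B3 * D i = B3 := by
    intro i
    calc (D i)ᵀ * B3 * D i = (h i)ᵀ * ((u3 (-(t i)))ᵀ * B3 * u3 (-(t i))) * h i := by
          simp only [hD, Matrix.transpose_mul, Matrix.mul_assoc]
      _ = B3 := by rw [hu, hB]
  have hDd : ∀ i, IsUnit (D i).det := by
    intro i
    simp only [hD]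
    rw [Matrix.det_mul, hd i, hfix.2.2.2.2.2.2.2.2.2.2.1]
    simp
  -- `D (B3 D^T B3) = 1`
  have hDinv : ∀ i, D i * (B3 * (D i)ᵀ * B3) = 1 := by
    intro i
    have h1 : (B3 * (D i)ᵀ * B3) * D i = 1 := by
      calc (B3 * (D i)ᵀ * B3) * D i = B3 * ((D i)ᵀ * B3 * D i) := by
            simp only [Matrix.mul_assoc]
        _ = 1 := by rw [hDB, B3_sq]
    exact mul_eq_one_comm.1 h1
  set v : Fin 3 → ℝ := B3 *ᵥ η with hv
  have hv0 : v ≠ 0 := by
    intro h0
    apply hη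
    have : B3 *ᵥ v = η := by rw [hv, Matrix.mulVec_mulVec, B3_sq, Matrix.one_mulVec]
    rw [← this, h0, Matrix.mulVec_zero]
  have hχ : ∀ i, D i *ᵥ (χ i • v) = v := by
    intro i
    have h1 : (D i)ᵀ *ᵥ η = χ i • η := by
      rw [Matrix.mulVec_transpose]; exact heq i
    have h2 : (B3 * (D i)ᵀ * B3) *ᵥ v = χ i • v := by
      rw [hv, ← Matrix.mulVec_mulVec, ← Matrix.mulVec_mulVec, Matrix.mulVec_mulVec (M := B3)
        (N := B3), B3_sq, Matrix.one_mulVec, h1, Matrix.mulVec_smul]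
    rw [← h2, Matrix.mulVec_mulVec, hDinv, Matrix.one_mulVec]
  have hχ0 : ∀ i, χ i ≠ 0 := by
    intro i h0
    have := hχ i
    rw [h0, zero_smul, Matrix.mulVec_zero] at this
    exact hv0 this.symm
  refine no_eigvec h t (fun i => (χ i)⁻¹) hh ht hB hne v hv0 fun i => ?_
  have h1 := hχ i
  rw [Matrix.mulVec_smul] at h1
  have h2 : D i *ᵥ v = (χ i)⁻¹ • v := by
    calc D i *ᵥ v = (χ i)⁻¹ • (χ i • (D i *ᵥ v)) := by
          rw [smul_smul, inv_mul_cancel₀ (hχ0 i), one_smul]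
      _ = _ := by rw [h1]
  have h3 : u3 (t i) * D i = h i := by
    simp only [hD]
    rw [← Matrix.mul_assoc, hfix.2.2.2.2.2.2.2.2.2.1, add_neg_cancel]
    have : u3 0 = 1 := by
      ext a b
      fin_cases a <;> fin_cases b <;> simp [u3]
    rw [this, Matrix.one_mul]
  rw [← h3, ← Matrix.mulVec_mulVec, h2, Matrix.mulVec_smul]

/-- the `D i` do not commute -/
theorem no_commute (h : ℕ → Matrix (Fin 3) (Fin 3) ℝ) (t : ℕ → ℝ)
    (hh : Tendsto h atTop (𝓝 1)) (ht : Tendsto t atTop atTop)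
    (hB : ∀ i, (h i)ᵀ * B3 * h i = B3) (hne : ∀ i, h i 0 1 ≠ 0)
    (hcom : ∀ i, (u3 (-(t i)) * h i) * (u3 (-(t 0)) * h 0) =
      (u3 (-(t 0)) * h 0) * (u3 (-(t i)) * h i)) : False := by
  have hfix := fixed3
  set D := u3 (-(t 0)) * h 0 with hD
  have hD01 : D 0 1 ≠ 0 := by
    have : D 0 1 = h 0 0 1 := by
      rw [hD]
      simp [u3, Matrix.mul_apply, Fin.sum_univ_three]
    rw [this]; exact hne 0
  have hinv : ∀ i, h i * (B3 * (h i)ᵀ * B3) = 1 := by
    intro i
    have h1 : (B3 * (h i)ᵀ * B3) * h i = 1 := by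
      calc (B3 * (h i)ᵀ * B3) * h i = B3 * ((h i)ᵀ * B3 * h i) := by
            simp only [Matrix.mul_assoc]
        _ = 1 := by rw [hB, B3_sq]
    exact mul_eq_one_comm.1 h1
  have hu0 : u3 0 = 1 := by
    ext a b
    fin_cases a <;> fin_cases b <;> simp [u3]
  clear_value D
  have huu : ∀ s, u3 s * u3 (-s) = 1 := by
    intro s
    rw [hfix.2.2.2.2.2.2.2.2.2.1, add_neg_cancel, hu0]
  have hE : ∀ i, u3 (t i) * D * u3 (-(t i)) = h i * D * (B3 * (h i)ᵀ * B3) := by
    intro i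
    have h1 : h i * D = u3 (t i) * D * u3 (-(t i)) * h i := by
      calc h i * D = (u3 (t i) * u3 (-(t i))) * h i * D := by rw [huu, Matrix.one_mul]
        _ = u3 (t i) * (u3 (-(t i)) * h i * D) := by simp only [Matrix.mul_assoc]
        _ = u3 (t i) * (D * (u3 (-(t i)) * h i)) := by rw [hcom i]
        _ = _ := by simp only [Matrix.mul_assoc]
    rw [h1, Matrix.mul_assoc _ (h i), hinv, Matrix.mul_one]
  have hlim : Tendsto (fun i => u3 (t i) * D * u3 (-(t i))) atTop (𝓝 D) := by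
    have h1 : Continuous fun g : Matrix (Fin 3) (Fin 3) ℝ => g * D * (B3 * gᵀ * B3) := by fun_prop
    have h2 := (h1.tendsto 1).comp hh
    simp only [Matrix.one_mul, Matrix.transpose_one, Matrix.mul_one, B3_sq] at h2
    exact h2.congr fun i => (hE i).symm
  have l00 := (tendsto_pi_nhds.1 (tendsto_pi_nhds.1 hlim 0)) 0
  have l01 := (tendsto_pi_nhds.1 (tendsto_pi_nhds.1 hlim 0)) 1
  have e01 : ∀ i, (u3 (t i) * D * u3 (-(t i))) 0 1 = D 0 1 - t i * D 0 2 := by
    intro i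
    simp [u3, Matrix.mul_apply, Fin.sum_univ_three, Matrix.vecMul, dotProduct]
    ring
  have e00 : ∀ i, (u3 (t i) * D * u3 (-(t i))) 0 0 =
      D 0 0 - t i * D 0 1 + t i ^ 2 / 2 * D 0 2 := by
    intro i
    simp [u3, Matrix.mul_apply, Fin.sum_univ_three, Matrix.vecMul, dotProduct]
    ring
  have key : ∀ a b : ℝ, Tendsto (fun i => a - t i * b) atTop (𝓝 a) → b = 0 := by
    intro a b hab
    by_contra hb
    have h1 : Tendsto (fun i => (a - (a - t i * b)) / b) atTop (𝓝 ((a - a) / b)) :=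
      (hab.const_sub a).div_const b
    rw [sub_self, zero_div] at h1
    have h2 : Tendsto t atTop (𝓝 0) := h1.congr fun i => by field_simp; ring
    exact not_tendsto_nhds_of_tendsto_atTop ht _ h2
  have hD02 : D 0 2 = 0 := key (D 0 1) (D 0 2) (l01.congr e01)
  have hD01' : D 0 1 = 0 := by
    refine key (D 0 0) (D 0 1) (l00.congr fun i => ?_)
    rw [e00 i, hD02]; ring
  exact hD01 hD01'

/-! ### linear algebra over the rationals -/

theorem map_rat_vecMul {ι : Type} [Fintype ι] (f : ℝ →ₗ[ℚ] ℚ) (ℓ : ι → ℝ) (γ : Matrix ι ι ℝ)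
    (hγ : ∀ i j, ∃ m : ℤ, γ i j = m) (j : ι) :
    ((fun i => (f (ℓ i) : ℝ)) ᵥ* γ) j = (f ((ℓ ᵥ* γ) j) : ℝ) := by
  choose m hm using hγ
  simp only [Matrix.vecMul, dotProduct, map_sum]
  push_cast
  refine Finset.sum_congr rfl fun i _ => ?_
  rw [hm]
  have : ℓ i * (m i j : ℝ) = (m i j : ℚ) • ℓ i := by
    rw [Rat.smul_def]; push_cast; ring
  rw [this, map_smul]
  push_cast
  rw [smul_eq_mul]
  push_cast
  ring

theorem map_rat_dot {ι : Type} [Fintype ι] (f : ℝ →ₗ[ℚ] ℚ) (ℓ v : ι → ℝ)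
    (hv : ∀ i, ∃ m : ℤ, v i = m) (h0 : ℓ ⬝ᵥ v = 0) : (fun i => (f (ℓ i) : ℝ)) ⬝ᵥ v = 0 := by
  choose m hm using hv
  have h1 : (fun i => (f (ℓ i) : ℝ)) ⬝ᵥ v = ((f (ℓ ⬝ᵥ v) : ℚ) : ℝ) := by
    simp only [dotProduct, map_sum]
    push_cast
    refine Finset.sum_congr rfl fun i _ => ?_
    rw [hm]
    have : ℓ i * (m i : ℝ) = (m i : ℚ) • ℓ i := by
      rw [Rat.smul_def]; push_cast; ring
    rw [this, map_smul]
    push_cast
    rw [smul_eq_mul]
    push_cast
    ring
  rw [h1, h0, map_zero, Rat.cast_zero]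

/-- a rational vector is proportional to an integer vector -/
theorem rat_to_int {ι : Type} [Fintype ι] (F : ι → ℚ) (hF : F ≠ 0) :
    ∃ (w : ι → ℤ) (N : ℤ), w ≠ 0 ∧ N ≠ 0 ∧ ∀ i, (w i : ℝ) = (N : ℝ) * (F i : ℝ) := by
  classical
  set N : ℤ := ∏ i, ((F i).den : ℤ) with hN
  have hN0 : N ≠ 0 := Finset.prod_ne_zero_iff.2 fun i _ => by exact_mod_cast (F i).den_nz
  have hw : ∀ i, ∃ m : ℤ, (m : ℚ) = N * F i := by
    intro i
    refine ⟨(∏ j ∈ Finset.univ.erase i, ((F j).den : ℤ)) * (F i).num, ?_⟩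
    have h1 : N = (∏ j ∈ Finset.univ.erase i, ((F j).den : ℤ)) * ((F i).den : ℤ) := by
      rw [hN, Finset.prod_erase_mul _ _ (Finset.mem_univ i)]
    rw [h1]
    push_cast
    rw [mul_assoc, Rat.den_mul_eq_num]
  choose w hw using hw
  refine ⟨w, N, ?_, hN0, ?_⟩
  · intro h0
    apply hF
    funext i
    have h1 := hw i
    rw [h0] at h1
    simp only [Pi.zero_apply, Int.cast_zero] at h1
    rcases mul_eq_zero.1 h1.symm with h2 | h2
    · exact absurd (by exact_mod_cast h2) hN0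
    · simpa using h2
  · intro i
    have := hw i
    have h2 : ((w i : ℚ) : ℝ) = ((N * F i : ℚ) : ℝ) := by rw [this]
    push_cast at h2
    exact h2

/-- three independent covectors in dimension four: the common kernel is a line -/
theorem ker_line (a b c : Fin 4 → ℝ) (hab : ∀ r s : ℝ, r • a + s • b = 0 → r = 0 ∧ s = 0)
    (hc : ¬ ∃ r s : ℝ, c = r • a + s • b) (v w : Fin 4 → ℝ) (hv : v ≠ 0)
    (h1 : a ⬝ᵥ v = 0) (h2 : b ⬝ᵥ v = 0) (h3 : c ⬝ᵥ v = 0)
    (k1 : a ⬝ᵥ w = 0) (k2 : b ⬝ᵥ w = 0) (k3 : c ⬝ᵥ w = 0) : ∃ χ : ℝ, w = χ • v := by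
  -- the three covectors are independent
  have hind : LinearIndependent ℝ ![a, b, c] := by
    rw [Fintype.linearIndependent_iff]
    intro g hg
    simp only [Fin.sum_univ_three, Matrix.cons_val_zero, Matrix.cons_val_one,
      Matrix.cons_val_two, Matrix.head_cons, Matrix.tail_cons] at hg
    have hg' : g 0 • a + g 1 • b + g 2 • c = 0 := by
      simpa using hg
    have hg2 : g 2 = 0 := by
      by_contra hne
      apply hc
      refine ⟨-(g 2)⁻¹ * g 0, -(g 2)⁻¹ * g 1, ?_⟩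
      funext j
      have := congrFun hg' j
      simp only [Pi.add_apply, Pi.smul_apply, smul_eq_mul, Pi.zero_apply] at this ⊢
      field_simp
      linarith
    rw [hg2, zero_smul, add_zero] at hg'
    obtain ⟨g0, g1⟩ := hab _ _ hg'
    intro i
    fin_cases i
    · exact g0
    · exact g1
    · exact hg2
  set M : Matrix (Fin 3) (Fin 4) ℝ := Matrix.of ![a, b, c] with hM
  have hrank : M.rank = 3 := by
    have := LinearIndependent.rank_matrix (M := M) hind
    simpa using this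
  have hker : Module.finrank ℝ (LinearMap.ker M.mulVecLin) = 1 := by
    have h4 := LinearMap.finrank_range_add_finrank_ker M.mulVecLin
    have h5 : Module.finrank ℝ (LinearMap.range M.mulVecLin) = 3 := hrank
    rw [h5] at h4
    simp at h4
    omega
  have hvm : v ∈ LinearMap.ker M.mulVecLin := by
    rw [LinearMap.mem_ker]
    funext i
    fin_cases i
    · exact h1
    · exact h2
    · exact h3
  have hwm : w ∈ LinearMap.ker M.mulVecLin := by
    rw [LinearMap.mem_ker]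
    funext i
    fin_cases i
    · exact k1
    · exact k2
    · exact k3
  obtain ⟨χ, hχ⟩ := (finrank_eq_one_iff_of_nonzero' (⟨v, hvm⟩ : LinearMap.ker M.mulVecLin)
    (by intro h; exact hv (congrArg Subtype.val h))).1 hker ⟨w, hwm⟩
  exact ⟨χ, (congrArg Subtype.val hχ).symm⟩

/-! ### the theorem -/

theorem u3_zero : u3 0 = 1 := by
  ext a b
  fin_cases a <;> fin_cases b <;> simp [u3]

theorem beta4_4 (hblock : QL.hblockStatement) : QL.beta4_4Statement := by
  intro x hx hT t ht γ hγ h c hh hc hc0 hB hd hne heq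
  have hxu : IsUnit x.det := by rw [hx]; exact isUnit_one
  have hxi : x⁻¹ * x = 1 := Matrix.nonsing_inv_mul x hxu
  have hxi' : x * x⁻¹ = 1 := Matrix.mul_nonsing_inv x hxu
  -- the blocks
  set h' : ℕ → Matrix (Fin 3) (Fin 3) ℝ := fun i => (h i).submatrix Fin.castSucc Fin.castSucc
    with hh'
  have hemb : ∀ i, h i = emb (h' i) := fun i => by
    obtain ⟨hz, h33, -, -⟩ := hblock (h i) (hd i) (hB i)
    exact eq_emb _ hz h33
  have hB' : ∀ i, (h' i)ᵀ * B3 * h' i = B3 := fun i => (hblock (h i) (hd i) (hB i)).2.2.1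
  have hd' : ∀ i, (h' i).det = 1 := fun i => (hblock (h i) (hd i) (hB i)).2.2.2
  have hne' : ∀ i, h' i 0 1 ≠ 0 := fun i => hne i
  have hlim' : Tendsto h' atTop (𝓝 1) := by
    refine tendsto_mat fun a b => ?_
    have h1 := (tendsto_pi_nhds.1 (tendsto_pi_nhds.1 hh a.castSucc)) b.castSucc
    have h2 : (1 : Matrix (Fin 4) (Fin 4) ℝ) a.castSucc b.castSucc =
        (1 : Matrix (Fin 3) (Fin 3) ℝ) a b := by
      simp only [Matrix.one_apply, Fin.castSucc_inj]
    rw [h2] at h1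
    exact h1
  set D : ℕ → Matrix (Fin 3) (Fin 3) ℝ := fun i => u3 (-(t i)) * h' i with hD
  set δ : ℕ → Matrix (Fin 4) (Fin 4) ℝ := fun i => emb (D i) * z4 (c i) with hδ
  have hdiag : ∀ i, z4 (c i) = !![c i, 0,0,0; 0, c i, 0,0; 0,0,c i,0; 0,0,0,(c i ^ 3)⁻¹] := by
    intro i
    ext a b
    fin_cases a <;> fin_cases b <;> simp [z4, Matrix.diagonal]
  have hδx : ∀ i, δ i * x = x * γ i := by
    intro i
    calc δ i * x = u4 (-(t i)) * (h i * z4 (c i) * x) := by
          simp only [hδ, hD]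
          rw [emb_mul, emb_u3, ← hemb]
          simp only [Matrix.mul_assoc]
      _ = u4 (-(t i)) * (u4 (t i) * x * γ i) := by rw [heq i]
      _ = (u4 (-(t i)) * u4 (t i)) * x * γ i := by simp only [Matrix.mul_assoc]
      _ = x * γ i := by rw [u4_neg, Matrix.one_mul]
  have hγδ : ∀ i, γ i = x⁻¹ * δ i * x := by
    intro i
    rw [Matrix.mul_assoc, hδx, ← Matrix.mul_assoc, hxi, Matrix.one_mul]
  have hδγ : ∀ i, δ i = x * γ i * x⁻¹ := by
    intro i
    rw [← hδx, Matrix.mul_assoc, hxi', Matrix.mul_one]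
  -- the entries of `δ`
  have hδe : ∀ i, δ i = !![c i * D i 0 0, c i * D i 0 1, c i * D i 0 2, 0;
      c i * D i 1 0, c i * D i 1 1, c i * D i 1 2, 0;
      c i * D i 2 0, c i * D i 2 1, c i * D i 2 2, 0; 0, 0, 0, (c i ^ 3)⁻¹] := by
    intro i
    simp only [hδ]
    rw [hdiag i]
    ext a b
    fin_cases a <;> fin_cases b <;>
      simp [emb, Matrix.mul_apply, Fin.sum_univ_four, mul_comm]
  clear_value D δ
  -- the covector `ℓ`
  set ℓ : Fin 4 → ℝ := x 3 with hℓ
  have hLℓ : L4 ᵥ* x = ℓ := by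
    funext j
    simp [L4, Matrix.vecMul, dotProduct, Fin.sum_univ_four, hℓ]
  rw [hLℓ] at hT
  have hLδ : ∀ i, L4 ᵥ* δ i = (c i ^ 3)⁻¹ • L4 := by
    intro i
    rw [hδe i]
    funext j
    fin_cases j <;> simp [L4, Matrix.vecMul, dotProduct, Fin.sum_univ_four]
  have hℓγ : ∀ i, ℓ ᵥ* γ i = (c i ^ 3)⁻¹ • ℓ := by
    intro i
    calc ℓ ᵥ* γ i = (L4 ᵥ* x) ᵥ* γ i := by rw [hLℓ]
      _ = L4 ᵥ* (δ i * x) := by rw [Matrix.vecMul_vecMul, hδx i]
      _ = (L4 ᵥ* δ i) ᵥ* x := by rw [Matrix.vecMul_vecMul]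
      _ = (c i ^ 3)⁻¹ • ℓ := by rw [hLδ i, Matrix.smul_vecMul, hLℓ]
  have hℓ0 : ℓ ≠ 0 := by
    intro h0
    have : (x * x⁻¹) 3 3 = 0 := by
      rw [Matrix.mul_apply]
      exact Finset.sum_eq_zero fun k _ => by
        have : x 3 k = 0 := congrFun h0 k
        rw [this, zero_mul]
    rw [hxi', Matrix.one_apply_eq] at this
    exact one_ne_zero this
  -- the γ do not all commute
  have hcom : ∃ i, γ i * γ 0 ≠ γ 0 * γ i := by
    by_contra hcon
    push Not at hcon
    refine no_commute h' t hlim' ht hB' hne' fun i => ?_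
    have h1 : δ i * δ 0 = δ 0 * δ i := by
      rw [hδγ i, hδγ 0]
      calc x * γ i * x⁻¹ * (x * γ 0 * x⁻¹) = x * γ i * (x⁻¹ * x) * γ 0 * x⁻¹ := by
            simp only [Matrix.mul_assoc]
        _ = x * (γ i * γ 0) * x⁻¹ := by rw [hxi, Matrix.mul_one]; simp only [Matrix.mul_assoc]
        _ = x * (γ 0 * γ i) * x⁻¹ := by rw [hcon i]
        _ = x * γ 0 * (x⁻¹ * x) * γ i * x⁻¹ := by
            rw [hxi, Matrix.mul_one]; simp only [Matrix.mul_assoc]
        _ = _ := by simp only [Matrix.mul_assoc]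
    have hDi : u3 (-(t i)) * h' i = D i := by rw [hD]
    have hD0 : u3 (-(t 0)) * h' 0 = D 0 := by rw [hD]
    rw [hDi, hD0]
    have hcc : c i * c 0 ≠ 0 := mul_ne_zero (hc0 i).ne' (hc0 0).ne'
    have key : ∀ (a b : Fin 3), (δ i * δ 0) a.castSucc b.castSucc =
        (c i * c 0) * (D i * D 0) a b := by
      intro a b
      rw [hδe i, hδe 0]
      fin_cases a <;> fin_cases b <;>
        simp [Matrix.mul_apply, Fin.sum_univ_four, Fin.sum_univ_three] <;> ring
    have key' : ∀ (a b : Fin 3), (δ 0 * δ i) a.castSucc b.castSucc =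
        (c i * c 0) * (D 0 * D i) a b := by
      intro a b
      rw [hδe i, hδe 0]
      fin_cases a <;> fin_cases b <;>
        simp [Matrix.mul_apply, Fin.sum_univ_four, Fin.sum_univ_three] <;> ring
    ext a b
    have h2 := congrFun (congrFun h1 a.castSucc) b.castSucc
    rw [key, key'] at h2
    exact mul_left_cancel₀ hcc h2
  obtain ⟨i1, hi1⟩ := hcom
  -- an integer vector in the kernel of `ℓ`
  obtain ⟨m, hm0, hmint, hℓm⟩ : ∃ m : Fin 4 → ℝ, m ≠ 0 ∧ (∀ k, ∃ z : ℤ, m k = z) ∧ ℓ ⬝ᵥ m = 0 := by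
    obtain ⟨k, hk⟩ : ∃ k, (γ i1 * γ 0 - γ 0 * γ i1).col k ≠ 0 := by
      by_contra hcon
      push Not at hcon
      apply hi1
      rw [← sub_eq_zero]
      ext a b
      exact congrFun (hcon b) a
    refine ⟨(γ i1 * γ 0 - γ 0 * γ i1).col k, hk, ?_, ?_⟩
    · intro a
      choose m1 hm1 using (hγ i1).2
      choose m2 hm2 using (hγ 0).2
      refine ⟨∑ j, m1 a j * m2 j k - ∑ j, m2 a j * m1 j k, ?_⟩
      simp only [Matrix.col_apply, Matrix.sub_apply, Matrix.mul_apply]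
      push_cast
      simp only [hm1, hm2]
    · have h1 : ℓ ᵥ* (γ i1 * γ 0 - γ 0 * γ i1) = 0 := by
        rw [Matrix.vecMul_sub, ← Matrix.vecMul_vecMul, ← Matrix.vecMul_vecMul, hℓγ, hℓγ,
          Matrix.smul_vecMul, Matrix.smul_vecMul, hℓγ, hℓγ, smul_smul, smul_smul, mul_comm,
          sub_self]
      exact congrFun h1 k
  -- a rational functional
  obtain ⟨k0, hk0⟩ : ∃ k, ℓ k ≠ 0 := by
    by_contra hcon
    push Not at hcon
    exact hℓ0 (funext hcon)
  obtain ⟨f, hf⟩ : ∃ f : ℝ →ₗ[ℚ] ℚ, f (ℓ k0) ≠ 0 := by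
    by_contra hcon
    push Not at hcon
    exact hk0 ((Module.forall_dual_apply_eq_zero_iff ℚ (ℓ k0)).1 hcon)
  set F : Fin 4 → ℝ := fun i => (f (ℓ i) : ℝ) with hF
  have hFQ : (fun i => f (ℓ i)) ≠ 0 := fun h => hf (congrFun h k0)
  obtain ⟨w, N, hw0, hN0, hwN⟩ := rat_to_int _ hFQ
  have hwF : iv w = (N : ℝ) • F := by
    funext i
    exact hwN i
  have hN0' : (N : ℝ) ≠ 0 := by exact_mod_cast hN0
  have hFℓ : ∀ r : ℝ, F ≠ r • ℓ := by
    intro r hr
    refine hT w hw0 ⟨N * r, ?_⟩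
    rw [hwF, hr, smul_smul]
  have hind : ∀ r s : ℝ, r • ℓ + s • F = 0 → r = 0 ∧ s = 0 := by
    intro r s hrs
    have hs : s = 0 := by
      by_contra hs
      apply hFℓ (-(s⁻¹ * r))
      funext j
      have := congrFun hrs j
      simp only [Pi.add_apply, Pi.smul_apply, smul_eq_mul, Pi.zero_apply] at this ⊢
      field_simp
      linarith
    rw [hs, zero_smul, add_zero] at hrs
    refine ⟨?_, hs⟩
    rcases smul_eq_zero.1 hrs with h1 | h1
    · exact h1
    · exact absurd h1 hℓ0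
  by_cases hcase : ∀ i, ∃ r s : ℝ, F ᵥ* γ i = r • ℓ + s • F
  · -- an invariant covector
    choose r s hrs using hcase
    set ζ : Fin 4 → ℝ := F ᵥ* x⁻¹ with hζ
    have hζx : ζ ᵥ* x = F := by rw [hζ, Matrix.vecMul_vecMul, hxi, Matrix.vecMul_one]
    set η : Fin 3 → ℝ := fun k => ζ k.castSucc with hη
    have hη0 : η ≠ 0 := by
      intro h0
      have h1 : ζ = ζ 3 • L4 := by
        have z0 : ζ 0 = 0 := congrFun h0 0
        have z1 : ζ 1 = 0 := congrFun h0 1
        have z2 : ζ 2 = 0 := congrFun h0 2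
        funext k
        fin_cases k <;> simp [L4, z0, z1, z2]
      apply hFℓ (ζ 3)
      rw [← hζx, ← hLℓ, ← Matrix.smul_vecMul, ← h1]
    have hζδ : ∀ i, ζ ᵥ* δ i = r i • L4 + s i • ζ := by
      intro i
      have h1 : (ζ ᵥ* δ i) ᵥ* x = (r i • L4 + s i • ζ) ᵥ* x := by
        rw [Matrix.vecMul_vecMul, hδx, ← Matrix.vecMul_vecMul, hζx, hrs i, Matrix.add_vecMul,
          Matrix.smul_vecMul, Matrix.smul_vecMul, hLℓ, hζx]
      have h2 := congrArg (fun v => v ᵥ* x⁻¹) h1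
      simp only [Matrix.vecMul_vecMul, Matrix.mul_assoc, hxi', Matrix.mul_one,
        Matrix.vecMul_one] at h2
      exact h2
    refine no_eigcov h' t (fun i => s i / c i) hlim' ht hB' hd' hne' η hη0 fun i => ?_
    have hDi : u3 (-(t i)) * h' i = D i := by rw [hD]
    rw [hDi]
    funext k
    have h3 := congrFun (hζδ i) k.castSucc
    rw [hδe i] at h3
    have hci := (hc0 i).ne'
    have h4 : c i * (η ᵥ* D i) k = s i * η k := by
      rw [hη]
      fin_cases k <;>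
        simp [Matrix.vecMul, dotProduct, Fin.sum_univ_four, Fin.sum_univ_three, L4] at h3 ⊢ <;>
        linarith
    simp only [Pi.smul_apply, smul_eq_mul]
    field_simp
    linarith
  · -- an invariant vector
    push Not at hcase
    obtain ⟨i2, hi2⟩ := hcase
    have hF' : ¬ ∃ r s : ℝ, F ᵥ* γ i2 = r • ℓ + s • F := by
      rintro ⟨r, s, hrs⟩
      exact hi2 r s hrs
    have hFint : ∀ v : Fin 4 → ℝ, (∀ k, ∃ z : ℤ, v k = z) → ℓ ⬝ᵥ v = 0 → F ⬝ᵥ v = 0 :=
      fun v hv h0 => map_rat_dot f ℓ v hv h0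
    have hγint : ∀ i (v : Fin 4 → ℝ), (∀ k, ∃ z : ℤ, v k = z) → ∀ k, ∃ z : ℤ, (γ i *ᵥ v) k = z := by
      intro i v hv k
      choose z hz using hv
      choose m1 hm1 using (hγ i).2
      refine ⟨∑ j, m1 k j * z j, ?_⟩
      simp only [Matrix.mulVec, dotProduct]
      push_cast
      simp only [hm1, hz]
    have hℓγv : ∀ i (v : Fin 4 → ℝ), ℓ ⬝ᵥ v = 0 → ℓ ⬝ᵥ (γ i *ᵥ v) = 0 := by
      intro i v hv
      rw [Matrix.dotProduct_mulVec, hℓγ, smul_dotProduct, hv, smul_zero]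
    have hF'v : ∀ v : Fin 4 → ℝ, (∀ k, ∃ z : ℤ, v k = z) → ℓ ⬝ᵥ v = 0 →
        (F ᵥ* γ i2) ⬝ᵥ v = 0 := by
      intro v hv h0
      rw [← Matrix.dotProduct_mulVec]
      exact hFint _ (hγint i2 v hv) (hℓγv i2 v h0)
    have hχ : ∀ i, ∃ χ : ℝ, γ i *ᵥ m = χ • m := by
      intro i
      refine ker_line ℓ F (F ᵥ* γ i2) hind hF' m (γ i *ᵥ m) hm0 hℓm (hFint m hmint hℓm)
        (hF'v m hmint hℓm) (hℓγv i m hℓm) (hFint _ (hγint i m hmint) (hℓγv i m hℓm))
        (hF'v _ (hγint i m hmint) (hℓγv i m hℓm))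
    choose χ hχ using hχ
    set v : Fin 4 → ℝ := x *ᵥ m with hv
    have hv3 : v 3 = 0 := hℓm
    have hv0 : v ≠ 0 := by
      intro h0
      apply hm0
      have : x⁻¹ *ᵥ v = m := by rw [hv, Matrix.mulVec_mulVec, hxi, Matrix.one_mulVec]
      rw [← this, h0, Matrix.mulVec_zero]
    have hδv : ∀ i, δ i *ᵥ v = χ i • v := by
      intro i
      rw [hv, Matrix.mulVec_mulVec, hδx, ← Matrix.mulVec_mulVec, hχ, Matrix.mulVec_smul]
    set v' : Fin 3 → ℝ := fun k => v k.castSucc with hv'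
    have hv'0 : v' ≠ 0 := by
      intro h0
      apply hv0
      have z0 : v 0 = 0 := congrFun h0 0
      have z1 : v 1 = 0 := congrFun h0 1
      have z2 : v 2 = 0 := congrFun h0 2
      funext k
      fin_cases k
      · exact z0
      · exact z1
      · exact z2
      · exact hv3
    refine no_eigvec h' t (fun i => χ i / c i) hlim' ht hB' hne' v' hv'0 fun i => ?_
    have hci := (hc0 i).ne'
    have h4 : D i *ᵥ v' = (χ i / c i) • v' := by
      funext k
      have h3 := congrFun (hδv i) k.castSucc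
      rw [hδe i] at h3
      have h5 : c i * (D i *ᵥ v') k = χ i * v' k := by
        rw [hv']
        fin_cases k <;>
          simp [Matrix.mulVec, dotProduct, Fin.sum_univ_four, Fin.sum_univ_three, hv3] at h3 ⊢ <;>
          linarith
      simp only [Pi.smul_apply, smul_eq_mul]
      field_simp
      linarith
    have h6 : h' i = u3 (t i) * D i := by
      have hDi : D i = u3 (-(t i)) * h' i := by rw [hD]
      rw [hDi, ← Matrix.mul_assoc, fixed3.2.2.2.2.2.2.2.2.2.1, add_neg_cancel, u3_zero,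
        Matrix.one_mul]
    rw [h6, ← Matrix.mulVec_mulVec, h4, Matrix.mulVec_smul]

end QL.H72
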