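import Pool.Agent.Helper72_QL.Fixed3

/-!
# QL app1: struct3, alpha3
-/

set_option autoImplicit false
set_option linter.all false
open Matrix Polynomial MeasureTheory Set Filter Topology

namespace QL.H72

theorem B3_eq_form3 : B3 = form3 1 0 := by
  ext i j
  fin_cases i <;> fin_cases j <;> simp [form3, B3]

theorem B3_symm : B3ᵀ = B3 := by
  ext i j
  fin_cases i <;> fin_cases j <;> simp [B3]

theorem det_B3 : B3.det = 1 := by
  rw [B3_eq_form3, fixed3.2.1]; norm_num

theorem act_p3 (g : Matrix (Fin 3) (Fin 3) ℝ) : act p3 g = (gᵀ * B3 * g, 0) := by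
  simp [act, p3]

theorem act_pair3 (M g : Matrix (Fin 3) (Fin 3) ℝ) :
    act (M, (0 : Fin 3 → ℝ)) g = (gᵀ * M * g, 0) := by
  simp [act]

theorem det_conj {ι : Type} [Fintype ι] [DecidableEq ι] (g M : Matrix ι ι ℝ) (hg : g.det = 1) :
    (gᵀ * M * g).det = M.det := by
  rw [Matrix.det_mul, Matrix.det_mul, Matrix.det_transpose, hg]; ring

/-- a symmetric `U`-fixed form of determinant one -/
theorem fixed_det_one (M : Matrix (Fin 3) (Fin 3) ℝ) (hM : Mᵀ = M)
    (h : (u3 1)ᵀ * M * u3 1 = M) (hdet : M.det = 1) : M = form3 1 (M 0 0) := by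
  have h1 := form3_of_fixed M hM h
  have h2 : (M 0 2) ^ 3 = 1 := by
    have := fixed3.2.1 (M 0 2) (M 0 0)
    rw [← h1, hdet] at this
    exact this.symm
  have h3 : M 0 2 = 1 := by
    have h4 : (M 0 2 - 1) * ((M 0 2) ^ 2 + M 0 2 + 1) = 0 := by ring_nf; linarith
    rcases mul_eq_zero.1 h4 with h5 | h5
    · linarith
    · nlinarith [sq_nonneg (M 0 2 + 1 / 2)]
  rw [h3] at h1
  exact h1

theorem v3_cont : Continuous v3 := by
  unfold v3
  refine continuous_matrix fun i j => ?_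
  fin_cases i <;> fin_cases j <;> simp <;> fun_prop

theorem v3_zero : v3 0 = 1 := by
  ext i j
  fin_cases i <;> fin_cases j <;> simp [v3]

theorem v3_inv (α : ℝ) : v3 α * v3 (-α) = 1 := by
  rw [fixed3.2.2.2.2.2.2.2.1, add_neg_cancel, v3_zero]

theorem struct3 : QL.struct3Statement := by
  intro g hg hdet hf
  have hfix := fixed3
  set M : ℕ → Matrix (Fin 3) (Fin 3) ℝ := fun i => (g i)ᵀ * B3 * g i with hM
  have hMs : ∀ i, (M i)ᵀ = M i := by
    intro i
    simp only [hM, Matrix.transpose_mul, Matrix.transpose_transpose, B3_symm, Matrix.mul_assoc]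
  have hMd : ∀ i, (M i).det = 1 := fun i => by
    simp only [hM]
    rw [det_conj _ _ (hdet i), det_B3]
  have hMf : ∀ i, (u3 1)ᵀ * M i * u3 1 = M i := by
    intro i
    have := hf i 1
    rw [act_p3, act_pair3] at this
    exact congrArg Prod.fst this
  have hMe : ∀ i, M i = form3 1 (M i 0 0) := fun i => fixed_det_one _ (hMs i) (hMf i) (hMd i)
  have hMlim : Tendsto M atTop (𝓝 B3) := by
    have h1 : Continuous fun g : Matrix (Fin 3) (Fin 3) ℝ => gᵀ * B3 * g := by fun_prop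
    have h2 := (h1.tendsto 1).comp hg
    simpa [Function.comp_def, hM] using h2
  have hαlim : Tendsto (fun i => M i 0 0 / 2) atTop (𝓝 0) := by
    have h1 : Continuous fun N : Matrix (Fin 3) (Fin 3) ℝ => N 0 0 / 2 := by fun_prop
    have h2 := (h1.tendsto B3).comp hMlim
    simpa [B3, Function.comp_def] using h2
  refine ⟨fun i => g i * v3 (-(M i 0 0 / 2)), fun i => M i 0 0 / 2, ?_, hαlim, ?_⟩
  · have h1 : Tendsto (fun i => v3 (-(M i 0 0 / 2))) atTop (𝓝 1) := by
      have h2 := (v3_cont.tendsto (-0)).comp hαlim.neg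
      rw [neg_zero, v3_zero] at h2
      exact h2
    have h3 := hg.mul h1
    rwa [mul_one] at h3
  · intro i
    have h1 : v3 (-(M i 0 0 / 2)) * v3 (M i 0 0 / 2) = 1 := by
      have := v3_inv (-(M i 0 0 / 2))
      rwa [neg_neg] at this
    refine ⟨?_, ?_, ?_⟩
    · rw [Matrix.mul_assoc, h1, Matrix.mul_one]
    · have h2 := hfix.2.2.1 (M i 0 0 / 2)
      rw [mul_div_cancel₀ _ (two_ne_zero' ℝ)] at h2
      rw [← hMe i] at h2
      have h3 := v3_inv (M i 0 0 / 2)
      calc (g i * v3 (-(M i 0 0 / 2)))ᵀ * B3 * (g i * v3 (-(M i 0 0 / 2)))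
          = (v3 (-(M i 0 0 / 2)))ᵀ * M i * v3 (-(M i 0 0 / 2)) := by
            simp only [hM, Matrix.transpose_mul, Matrix.mul_assoc]
        _ = (v3 (-(M i 0 0 / 2)))ᵀ * ((v3 (M i 0 0 / 2))ᵀ * B3 * v3 (M i 0 0 / 2)) *
            v3 (-(M i 0 0 / 2)) := by rw [h2]
        _ = (v3 (M i 0 0 / 2) * v3 (-(M i 0 0 / 2)))ᵀ * B3 *
            (v3 (M i 0 0 / 2) * v3 (-(M i 0 0 / 2))) := by
            simp only [Matrix.transpose_mul, Matrix.mul_assoc]
        _ = B3 := by rw [h3]; simp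
    · rw [Matrix.det_mul, hdet i, one_mul]
      exact hfix.2.2.2.2.2.2.2.2.2.2.2.1 _

theorem alpha3 (hdrift : QL.driftStatement) : QL.alpha3Statement := by
  intro S hS U hU Y x hret g hg hdet hD hnf
  have hlim : Tendsto (fun i => act p3 (g i)) atTop (𝓝 p3) := by
    have h1 : Continuous fun g : Matrix (Fin 3) (Fin 3) ℝ => act p3 g := by
      unfold act
      fun_prop
    have h2 := (h1.tendsto 1).comp hg
    simpa [act, p3, Function.comp_def] using h2
  obtain ⟨P, hP0, ⟨ω, hω⟩, hPpol, hPfix, hPD, hPcl⟩ := hdrift U S hS Y x hret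
    (fun i => act p3 (g i)) p3 hD hlim (fun i => by
      obtain ⟨t, ht⟩ := hnf i
      exact ⟨fun _ => t, by rw [hU]; exact ht⟩)
    (fun w => by
      rw [hU, act_p3]
      unfold p3
      rw [fixed3.2.2.2.2.1])
  obtain ⟨A, b, hAb⟩ := hPpol ω
  -- structure of the points of the closure
  have hcl : ∀ ω', ((P ω').1ᵀ = (P ω').1 ∧ (P ω').1.det = 1) ∧ (P ω').2 = 0 := by
    intro ω'
    have hclosed : IsClosed {q : W (Fin 3) | (q.1ᵀ = q.1 ∧ q.1.det = 1) ∧ q.2 = 0} := by
      refine IsClosed.inter (IsClosed.inter ?_ ?_) ?_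
      · exact isClosed_eq (by fun_prop) (by fun_prop)
      · exact isClosed_eq (by fun_prop) (by fun_prop)
      · exact isClosed_eq (by fun_prop) (by fun_prop)
    have hsub : {q' : W (Fin 3) | ∃ i w, q' = act (act p3 (g i)) (U.u w)} ⊆
        {q : W (Fin 3) | (q.1ᵀ = q.1 ∧ q.1.det = 1) ∧ q.2 = 0} := by
      rintro q' ⟨i, w, rfl⟩
      rw [act_p3, act_pair3]
      refine ⟨⟨?_, ?_⟩, rfl⟩
      · simp only [Matrix.transpose_mul, Matrix.transpose_transpose, B3_symm, Matrix.mul_assoc]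
      · rw [det_conj _ _ (U.det_one w), det_conj _ _ (hdet i), det_B3]
    exact closure_minimal hsub hclosed (hPcl ω')
  have hform : ∀ ω', P ω' = (form3 1 ((P ω').1 0 0), 0) := by
    intro ω'
    obtain ⟨⟨h1, h2⟩, h3⟩ := hcl ω'
    have h4 : (u3 1)ᵀ * (P ω').1 * u3 1 = (P ω').1 := by
      have := hPfix ω' (fun _ => 1)
      rw [hU] at this
      exact congrArg Prod.fst this
    exact Prod.ext (fixed_det_one _ h1 h4 h2) h3
  have heval : ∀ t : ℝ, (P (t • ω)).1 0 0 = (A 0 0).eval t := by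
    intro t
    rw [hAb t]
    rfl
  refine ⟨A 0 0, ?_, ?_, ?_⟩
  · rw [← heval 0, zero_smul, hP0]
    simp [p3, B3]
  · intro h0
    apply hω
    have h1 := heval 1
    rw [h0, one_smul, Polynomial.eval_zero] at h1
    rw [hform ω, h1, ← B3_eq_form3]
    rfl
  · intro t ht x' hx'
    have h1 := hPD (t • ω) x' hx'
    rw [hform (t • ω), heval t] at h1
    exact h1

end QL.H72
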