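import Pool.Agent.Helper27_QL.StmtApp12

/-!
# QL app1: fixed3, U3_exists
-/

set_option autoImplicit false
set_option linter.all false
open Matrix Polynomial MeasureTheory Set Filter Topology

namespace QL.H72

theorem u3_apply (t : ℝ) : u3 t = !![1,0,0; t,1,0; t^2/2,t,1] := rfl

theorem form3_of_fixed (M : Matrix (Fin 3) (Fin 3) ℝ) (hM : Mᵀ = M)
    (h : (u3 1)ᵀ * M * u3 1 = M) : M = form3 (M 0 2) (M 0 0) := by
  have s10 : M 1 0 = M 0 1 := by
    have := congrFun (congrFun hM 0) 1
    simpa using this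
  have s20 : M 2 0 = M 0 2 := by
    have := congrFun (congrFun hM 0) 2
    simpa using this
  have s21 : M 2 1 = M 1 2 := by
    have := congrFun (congrFun hM 1) 2
    simpa using this
  have e : ∀ i j, ((u3 1)ᵀ * M * u3 1) i j = M i j := fun i j => by rw [h]
  have e12 := e 1 2
  have e11 := e 1 1
  have e01 := e 0 1
  have e00 := e 0 0
  simp [u3, Matrix.mul_apply, Fin.sum_univ_three] at e12 e11 e01 e00
  have h22 : M 2 2 = 0 := by linarith
  have h12 : M 1 2 = 0 := by linarith
  have h11 : M 1 1 = - M 0 2 := by linarith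
  have h01 : M 0 1 = 0 := by linarith
  ext i j
  fin_cases i <;> fin_cases j <;> simp [form3, *]

theorem fixed3 : QL.fixed3Statement := by
  refine ⟨fun M hM h => ⟨_, _, form3_of_fixed M hM (h 1)⟩, ?_, ?_, ?_, ?_, ?_, ?_, ?_, ?_, ?_, ?_,
    ?_, ?_⟩
  · intro θ α
    simp [form3, Matrix.det_fin_three]
    ring
  · intro α
    ext i j
    fin_cases i <;> fin_cases j <;>
      simp [form3, v3, B3, Matrix.mul_apply, Fin.sum_univ_three] <;> ring
  · intro θ α t
    ext i j
    fin_cases i <;> fin_cases j <;>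
      simp [form3, u3, Matrix.mul_apply, Fin.sum_univ_three] <;> ring
  · intro t
    ext i j
    fin_cases i <;> fin_cases j <;>
      simp [B3, u3, Matrix.mul_apply, Fin.sum_univ_three] <;> ring
  · intro l hl
    ext i j
    fin_cases i <;> fin_cases j <;>
      simp [B3, a3, Matrix.mul_apply, Fin.sum_univ_three, hl]
  · intro α t
    ext i j
    fin_cases i <;> fin_cases j <;>
      simp [v3, u3, Matrix.mul_apply, Fin.sum_univ_three] <;> ring
  · intro α β
    ext i j
    fin_cases i <;> fin_cases j <;>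
      simp [v3, Matrix.mul_apply, Fin.sum_univ_three]
  · intro l α hl
    ext i j
    fin_cases i <;> fin_cases j <;>
      simp [v3, a3, Matrix.mul_apply, Fin.sum_univ_three]
    field_simp
  · intro s t
    ext i j
    fin_cases i <;> fin_cases j <;>
      simp [u3, Matrix.mul_apply, Fin.sum_univ_three] <;> ring
  · intro t
    simp [u3, Matrix.det_fin_three]
  · intro α
    simp [v3, Matrix.det_fin_three]
  · intro l hl
    simp [a3, Matrix.det_fin_three, hl]

theorem u3_exists : QL.U3_existsStatement := by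
  obtain ⟨-, -, -, -, -, -, -, -, -, hadd, hdet, -, -⟩ := fixed3
  refine ⟨⟨!![1,0,0; MvPolynomial.X 0,1,0;
    MvPolynomial.C (1/2) * MvPolynomial.X 0 ^ 2, MvPolynomial.X 0, 1], fun w => u3 (w 0), ?_, ?_, ?_⟩,
    fun w => rfl⟩
  · intro w i j
    fin_cases i <;> fin_cases j <;> simp [u3]
    ring
  · intro w; exact hdet _
  · intro w w'
    rw [Pi.add_apply, hadd]

end QL.H72
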